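import Pool.Agent.H777R4.DM.Stmts2
import Pool.Agent.H610R3.DSH.TwoA

/-! Task KB of the project H777-DSN (helper30). -/

set_option autoImplicit false

namespace Pool.Agent.H30R3.DSNKB

open Pool.Agent.H777R4.DM
open H777DSH.H610

attribute [local instance 100] LieRing.ofAssociativeRing

/-- A primitive element with a letter at least `M` in some word has such a letter in the first
place of some word. -/
theorem firstLetter (M : ℕ) : ∀ F : AY, Prim F → (∃ v, co F v ≠ 0 ∧ ∃ a ∈ v, M ≤ a) →
    ∃ (a : ℕ) (v : List ℕ), M ≤ a ∧ co F (a :: v) ≠ 0 := by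
  classical
  intro F hF hex
  have key : ∃ n : ℕ, ∃ v : List ℕ, v.length = n ∧ (∀ a ∈ v, a < M) ∧
      ∃ (b : ℕ) (u : List ℕ), M ≤ b ∧ co F (v ++ b :: u) ≠ 0 := by
    obtain ⟨v, hv, a, ha, h2⟩ := hex
    have hs : ∀ v : List ℕ, (∃ a ∈ v, M ≤ a) → ∃ v1 : List ℕ, (∀ a ∈ v1, a < M) ∧
        ∃ (b : ℕ) (u : List ℕ), M ≤ b ∧ v = v1 ++ b :: u := by
      intro v
      induction v with
      | nil =>
        rintro ⟨a, ha, -⟩
        simp at ha
      | cons c v ih =>
        rintro ⟨a, ha, h2⟩
        by_cases hc : M ≤ c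
        · exact ⟨[], by simp, c, v, hc, rfl⟩
        · have : a ∈ v := by
            rcases List.mem_cons.1 ha with h | h
            · omega
            · exact h
          obtain ⟨v1, h3, b, u, h4, h5⟩ := ih ⟨a, this, h2⟩
          refine ⟨c :: v1, ?_, b, u, h4, by rw [h5]; rfl⟩
          intro a ha
          rcases List.mem_cons.1 ha with h | h
          · omega
          · exact h3 a h
    obtain ⟨v1, h3, b, u, h4, h5⟩ := hs v ⟨a, ha, h2⟩
    exact ⟨v1.length, v1, rfl, h3, b, u, h4, by rw [← h5]; exact hv⟩
  obtain ⟨v, hvn, hsmall, b, u, hb, hne⟩ := Nat.find_spec key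
  have hmin := fun m (hm : m < Nat.find key) => Nat.find_min key hm
  rcases v with _ | ⟨c, v⟩
  · exact ⟨b, u, hb, hne⟩
  · exfalso
    have h1 := congrArg (fun Q : AYY => Q.coeff (FreeMonoid.ofList (c :: v),
      FreeMonoid.ofList (b :: u))) hF
    simp only [MonoidAlgebra.coeff_add, Finsupp.add_apply] at h1
    rw [co_inl_zero, co_inr_zero, sh_co, add_zero] at h1
    have h2 := sumShuf F b (c :: v) [] u (by
      intro v1 v2 hv hne2 t
      by_contra hc
      have hl : v1.length < (c :: v).length := by
        rw [hv, List.length_append]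
        have : 0 < v2.length := List.length_pos_iff.2 hne2
        omega
      rw [hvn] at hl
      refine hmin v1.length hl ⟨v1, rfl, ?_, b, t, hb, by simpa using hc⟩
      intro a ha
      exact hsmall a (by rw [hv]; exact List.mem_append_left _ ha))
    have h3 : (fun t => co F ([] ++ t)) = co F := by
      funext t
      rfl
    rw [h3, h1] at h2
    exact hne (by simpa using h2.symm)

/-- every word ending in `1` is a `wordX` -/
theorem end_one (u : List (Fin 2)) : ∃ v : List ℕ, u ++ [1] = wordX v := by
  have h := wordX_strip (u ++ [1])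
  refine ⟨(strip (u ++ [1])).1, ?_⟩
  rcases h2 : (strip (u ++ [1])).2 with _ | k
  · rw [h2] at h
    simpa using h.symm
  · exfalso
    rw [h2, List.replicate_succ', ← List.append_assoc] at h
    have h3 := congrArg List.getLast? h
    simp at h3

theorem sum_le_max : ∀ v : List ℕ, v ≠ [] → ∃ M ∈ v, v.sum ≤ v.length * M := by
  intro v
  induction v with
  | nil => intro h; exact absurd rfl h
  | cons a v ih =>
    intro _
    by_cases hv : v = []
    · subst hv
      exact ⟨a, by simp, by simp⟩
    · obtain ⟨M, hM, h⟩ := ih hv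
      rcases le_total a M with h1 | h1
      · refine ⟨M, List.mem_cons_of_mem _ hM, ?_⟩
        rw [List.sum_cons, List.length_cons, add_mul, one_mul]
        omega
      · refine ⟨a, by simp, ?_⟩
        rw [List.sum_cons, List.length_cons, add_mul, one_mul]
        have : v.length * M ≤ v.length * a := Nat.mul_le_mul_left _ h1
        omega

theorem taskKB : TaskKB := by
  intro r0 tb ψ r w hψ hc0 hom hr hmin hex hprim
  -- F0 ≠ 0
  have hR : ∀ j : ℕ, ((j : ℚ) + 1) • Fp r ψ (j + 1) = - dl (Fp r ψ j) := by
    intro j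
    have := congrArg (dp r) (r0 ψ hψ hc0 j)
    rw [map_smul, map_neg, dp_dl] at this
    exact this
  have hF0 : Fp r ψ 0 ≠ 0 := by
    intro h0
    have hall : ∀ j, Fp r ψ j = 0 := by
      intro j
      induction j with
      | zero => exact h0
      | succ j ih =>
        have h1 := hR j
        rw [ih, map_zero, neg_zero, smul_eq_zero] at h1
        rcases h1 with h1 | h1
        · exfalso
          have : (0 : ℚ) < (j : ℚ) + 1 := by positivity
          linarith
        · exact h1
    obtain ⟨u, hu, hur⟩ := hex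
    have h1 := co_Fp r ψ (strip u).2 (strip u).1
    rw [hall, co_zero, wordX_strip, if_pos] at h1
    · exact hu h1.symm
    · rw [← hur]
      conv_rhs => rw [← wordX_strip u]
      rw [word_count]
  obtain ⟨v, hv⟩ := exists_co_ne hF0
  obtain ⟨hvl, hvs⟩ := co_Fp_ne hom hv
  have hvne : v ≠ [] := by
    intro h
    rw [h] at hvl
    simp at hvl
    omega
  obtain ⟨M, hM, hMs⟩ := sum_le_max v hvne
  rw [hvl] at hMs
  obtain ⟨a, v', haM, hav⟩ := firstLetter M (Fp r ψ 0) hprim ⟨v, hv, M, hM, le_rfl⟩
  have hl' := (co_Fp_ne hom hav).1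
  rw [co_Fp, if_pos hl', List.replicate_zero, List.append_nil] at hav
  refine ⟨a, ?_, ?_⟩
  · have : r * M ≤ r * a := Nat.mul_le_mul_left r haM
    omega
  · obtain ⟨v2, hv2⟩ := end_one (wordX v').reverse
    have hrev : (wordX (a :: v')).reverse = wordX v2 ++ List.replicate a 0 := by
      rw [wordX, List.reverse_append, List.reverse_cons, hv2, List.reverse_replicate]
    have hco : co ψ (wordX v2 ++ List.replicate a 0) ≠ 0 := by
      rw [← hrev, tb ψ hψ]
      exact mul_ne_zero (pow_ne_zero _ (by norm_num)) hav
    have hl2 : v2.length = r := by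
      have h1 : ((wordX (a :: v')).reverse).count 1 = (wordX v2 ++ List.replicate a 0).count 1 := by
        rw [hrev]
      rw [List.count_reverse, wordX_count, word_count] at h1
      rw [← h1, hl']
    intro h
    have h1 := co_Fp r ψ a v2
    rw [h, co_zero, if_pos hl2] at h1
    exact hco h1.symm

end Pool.Agent.H30R3.DSNKB
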