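import Pool.Agent.H30R3.Rl2
import Pool.Agent.FBZ.Dec

set_option autoImplicit false

open scoped Classical

namespace Pool.Agent.H30R3

open Pool.Agent.FBZ

variable {K : Type} [Field K] {X : Type} {n : ℕ}

abbrev An (n : ℕ) : Type := Multiplicative (Vn n × Vn n × Vn n)

theorem An_sq (x : An n) : x * x = 1 := by
  obtain ⟨a, rfl⟩ := Multiplicative.ofAdd.surjective x
  rw [← ofAdd_add]
  have : a + a = 0 := by
    refine Prod.ext (vadd_self _) (Prod.ext (vadd_self _) (vadd_self _))
  rw [this, ofAdd_zero]

/-- the homomorphism to `Wr` attached to a linear functional `r` and twisting data -/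
def Psi2 (q : FreeGroup X →* Hn n × Kˣ) (be : FreeGroup X → ZMod 2) (V ta : FreeGroup X → Vn n)
    (hbe : ∀ g g', be (g * g') = be g + be g')
    (hV : ∀ g g', V (g * g') = V g + V g' + be g • (q g').1.e)
    (hta : ∀ g g', ta (g * g') = ta g + ta g') (r : Vn n) : FreeGroup X →* Wr (An n) :=
  MonoidHom.mk'
    (fun g => ⟨fun m => Multiplicative.ofAdd
      (ctr r (q g).1.w + V g + m • (q g).1.e, (q g).1.e, ta g),
      dot r (q g).1.e + be g⟩)
    (by
      intro g g'
      refine Wr.ext (funext fun m => ?_) ?_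
      · show Multiplicative.ofAdd _ = Multiplicative.ofAdd _ * Multiplicative.ofAdd _
        rw [← ofAdd_add]
        congr 1
        refine Prod.ext ?_ (Prod.ext ?_ ?_)
        · show ctr r (q (g * g')).1.w + V (g * g') + m • (q (g * g')).1.e =
            (ctr r (q g).1.w + V g + m • (q g).1.e) +
            (ctr r (q g').1.w + V g' + (m + (dot r (q g).1.e + be g)) • (q g').1.e)
          rw [map_mul, Prod.fst_mul, Hn.ctr_mul, hV, Hn.mul_e]
          funext j
          simp only [Pi.add_apply, Pi.smul_apply, smul_eq_mul]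
          ring
        · show (q (g * g')).1.e = (q g).1.e + (q g').1.e
          rw [map_mul, Prod.fst_mul, Hn.mul_e]
        · exact hta g g'
      · show dot r (q (g * g')).1.e + be (g * g') =
          (dot r (q g).1.e + be g) + (dot r (q g').1.e + be g')
        rw [map_mul, Prod.fst_mul, Hn.mul_e, dot_add, hbe]
        ring)

/-- the scalar part -/
def ch (q : FreeGroup X →* Hn n × Kˣ) : FreeGroup X →* Kˣ := (MonoidHom.snd (Hn n) Kˣ).comp q

/-- off-diagonal terms -/
theorem polar2 (h2 : (2 : K) = 0) (q : FreeGroup X →* Hn n × Kˣ) (Y : UZ2 ℤ X) (hR : RP2 K Y) (x x' : X) (hx : x ≠ x')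
    (h h' : Hn n) :
    Finsupp.linearCombination ℤ (fun p : (FreeGroup X × X) × (FreeGroup X × X) =>
      (if p.1.2 = x ∧ p.2.2 = x' then ((q p.1.1).2 : K) * ((q p.2.1).2 : K) *
        phi K ((q p.1.1).1 * h) ((q p.2.1).1 * h') else 0) +
      (if p.1.2 = x' ∧ p.2.2 = x then ((q p.1.1).2 : K) * ((q p.2.1).2 : K) *
        phi K ((q p.1.1).1 * h') ((q p.2.1).1 * h) else 0)) Y = 0 := by
  let a : ZMod 2 → ZMod 2 → X → ZMod 2 → ℤ × ℤ := fun μ μ' z m =>
    if z = x then (if m = μ then 1 else 0, 0) else
      if z = x' then (0, if m = μ' then 1 else 0) else 0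
  let f : Vn n → ZMod 2 → ZMod 2 → An n × Kˣ → K := fun r μ μ' v =>
    if (Multiplicative.toAdd v.1).2.1 = h.e + h'.e ∧
      (Multiplicative.toAdd v.1).1 = ctr r (h.w + h'.w) + μ • h.e + μ' • h'.e then (v.2 : K) else 0
  let Ps : Vn n → FreeGroup X →* Wr (An n) := fun r =>
    Psi2 q (fun _ => 0) (fun _ => 0) (fun _ => 0) (by simp) (by simp) (by simp) r
  have key : ∀ p : (FreeGroup X × X) × (FreeGroup X × X),
      (if p.1.2 = x ∧ p.2.2 = x' then ((q p.1.1).2 : K) * ((q p.2.1).2 : K) *
        phi K ((q p.1.1).1 * h) ((q p.2.1).1 * h') else 0) +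
      (if p.1.2 = x' ∧ p.2.2 = x then ((q p.1.1).2 : K) * ((q p.2.1).2 : K) *
        phi K ((q p.1.1).1 * h') ((q p.2.1).1 * h) else 0) =
      ∑ k ∈ (Finset.univ : Finset (Vn n × ZMod 2 × ZMod 2)),
        kr2 (Ps k.1) (ch q) (a k.2.1 k.2.2) (f k.1 k.2.1 k.2.2) p := by
    rintro ⟨⟨g, z⟩, ⟨g', z'⟩⟩
    have hf : ∀ r μ μ', f r μ μ' ((Ps r g).b 0 * (Ps r g').b 0, ch q g * ch q g') =
        if (q g).1.e + (q g').1.e = h.e + h'.e ∧ ctr r (q g).1.w + ctr r (q g').1.w =
          ctr r (h.w + h'.w) + μ • h.e + μ' • h'.e then ((q g).2 : K) * ((q g').2 : K) else 0 := by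
      intro r μ μ'
      simp [f, Ps, Psi2, ch]
    have hs : ∀ r, (Ps r g).s = dot r (q g).1.e := by
      intro r; simp [Ps, Psi2]
    have hs' : ∀ r, (Ps r g').s = dot r (q g').1.e := by
      intro r; simp [Ps, Psi2]
    rw [Fintype.sum_prod_type]
    simp only [Fintype.sum_prod_type, kr2, hf, hs, hs']
    by_cases h1 : z = x
    · subst h1
      by_cases h3 : z' = x'
      · subst h3
        have e1 : ∀ r : Vn n, ∀ μ μ' : ZMod 2,
            Om (a μ μ' z (dot r (q g).1.e)) (a μ μ' z' (dot r (q g').1.e)) =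
            ((if dot r (q g).1.e = μ then (1 : ℤ) else 0) *
              (if dot r (q g').1.e = μ' then (1 : ℤ) else 0)) := by
          intro r μ μ'
          simp [a, Om, hx.symm]
        simp only [e1, sum2]
        simp only [hx, and_self, if_true, false_and, if_false, add_zero]
        unfold phi
        rw [Finset.mul_sum]
        refine Finset.sum_congr rfl fun r _ => ?_
        rw [mul_ite, mul_one, mul_zero]
        exact if_congr (cond_iff r _ _ _ _) rfl rfl
      · have e1 : ∀ r : Vn n, ∀ μ μ' : ZMod 2,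
            Om (a μ μ' z (dot r (q g).1.e)) (a μ μ' z' (dot r (q g').1.e)) = 0 := by
          intro r μ μ'
          by_cases h4 : z' = z
          · subst h4
            simp [a, Om]
          · simp [a, Om, h3, h4]
        simp [e1, h3, hx]
    · by_cases h2 : z = x'
      · subst h2
        by_cases h3 : z' = x
        · subst h3
          have e1 : ∀ r : Vn n, ∀ μ μ' : ZMod 2,
              Om (a μ μ' z (dot r (q g).1.e)) (a μ μ' z' (dot r (q g').1.e)) =
              -((if dot r (q g).1.e = μ' then (1 : ℤ) else 0) *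
                (if dot r (q g').1.e = μ then (1 : ℤ) else 0)) := by
            intro r μ μ'
            simp [a, Om, h1]
          simp only [e1, sum2' h2]
          simp only [h1, and_self, if_true, false_and, if_false, zero_add]
          unfold phi
          rw [Finset.mul_sum]
          refine Finset.sum_congr rfl fun r _ => ?_
          rw [mul_ite, mul_one, mul_zero]
          refine if_congr ((cond_iff r _ _ _ _).trans ?_) rfl rfl
          rw [add_comm h'.e h.e, add_comm h'.w h.w, add_right_comm]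
        · have e1 : ∀ r : Vn n, ∀ μ μ' : ZMod 2,
              Om (a μ μ' z (dot r (q g).1.e)) (a μ μ' z' (dot r (q g').1.e)) = 0 := by
            intro r μ μ'
            by_cases h4 : z' = z
            · subst h4
              simp [a, Om, h1]
            · simp [a, Om, h3, h4, h1]
          simp [e1, h3, h1]
      · have e1 : ∀ r : Vn n, ∀ μ μ' : ZMod 2,
            Om (a μ μ' z (dot r (q g).1.e)) (a μ μ' z' (dot r (q g').1.e)) = 0 := by
          intro r μ μ'
          simp [a, Om, h1, h2]
        simp [e1, h1, h2]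
  simp only [key]
  exact lc_sum _ _ _ fun k _ => hR _ _ An_sq _ _ _ _

/-- diagonal terms -/
theorem diag_t2 (h2 : (2 : K) = 0) (q : FreeGroup X →* Hn n × Kˣ) (Y : UZ2 ℤ X) (hR : RP2 K Y)
    (x : X) (be : FreeGroup X → ZMod 2) (V ta : FreeGroup X → Vn n)
    (hbe : ∀ g g', be (g * g') = be g + be g')
    (hV : ∀ g g', V (g * g') = V g + V g' + be g • (q g').1.e)
    (hta : ∀ g g', ta (g * g') = ta g + ta g') (t : Vn n)
    (ht : ∀ g g', ta g + ta g' = t → be g + be g' = 1) :
    Finsupp.linearCombination ℤ (fun p : (FreeGroup X × X) × (FreeGroup X × X) =>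
      (if p.1.2 = x ∧ p.2.2 = x ∧ (q p.1.1).1.e = (q p.2.1).1.e ∧ ta p.1.1 + ta p.2.1 = t then
        ((q p.1.1).2 : K) * ((q p.2.1).2 : K) *
        Dc K ((q p.1.1).1.w + (q p.2.1).1.w) 0 else 0)) Y = 0 := by
  let a : X → ZMod 2 → ℤ × ℤ := fun z m =>
    if z = x then (if m = 0 then 1 else 0, if m = 0 then 0 else 1) else 0
  let f : An n × Kˣ → K := fun v =>
    if (Multiplicative.toAdd v.1).2.1 = 0 ∧ (Multiplicative.toAdd v.1).2.2 = t ∧
      (Multiplicative.toAdd v.1).1 = 0 then (v.2 : K) else 0
  have key : ∀ p : (FreeGroup X × X) × (FreeGroup X × X),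
      (if p.1.2 = x ∧ p.2.2 = x ∧ (q p.1.1).1.e = (q p.2.1).1.e ∧ ta p.1.1 + ta p.2.1 = t then
        ((q p.1.1).2 : K) * ((q p.2.1).2 : K) *
        Dc K ((q p.1.1).1.w + (q p.2.1).1.w) 0 else 0) =
      ∑ k ∈ (Finset.univ : Finset (Vn n)),
        kr2 (Psi2 q be V ta hbe hV hta k) (ch q) a f p := by
    rintro ⟨⟨g, z⟩, ⟨g', z'⟩⟩
    have hf : ∀ r, f ((Psi2 q be V ta hbe hV hta r g).b 0 * (Psi2 q be V ta hbe hV hta r g').b 0, ch q g * ch q g') =
        if (q g).1.e + (q g').1.e = 0 ∧ ta g + ta g' = t ∧
          ctr r (q g).1.w + V g + (ctr r (q g').1.w + V g') = 0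
          then ((q g).2 : K) * ((q g').2 : K) else 0 := by
      intro r
      simp [f, Psi2, ch]
    have hs : ∀ r g, (Psi2 q be V ta hbe hV hta r g).s = dot r (q g).1.e + be g := by
      intro r g; rfl
    simp only [kr2, hf, hs]
    by_cases h1 : z = x ∧ z' = x
    · obtain ⟨rfl, rfl⟩ := h1
      by_cases h3 : (q g).1.e = (q g').1.e ∧ ta g + ta g' = t
      · rw [if_pos ⟨rfl, rfl, h3⟩, Dc_indep h2 _ 0 (V g + V g')]
        unfold Dc
        rw [Finset.mul_sum]
        refine Finset.sum_congr rfl fun r _ => ?_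
        have hb := ht g g' h3.2
        have hneg : ∀ x : K, -x = x := fun x => by linear_combination (-x) * h2
        have hO : ∀ v : K, Om (a z' (dot r (q g).1.e + be g)) (a z' (dot r (q g').1.e + be g')) • v =
            v := by
          intro v
          rw [h3.1]
          generalize dot r (q g').1.e = d
          generalize be g = b at hb ⊢
          generalize be g' = b' at hb ⊢
          have hb' : d + b + (d + b') = 1 := by
            have := Wr.add_self_zmod2 d
            linear_combination hb + this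
          generalize d + b = u at hb' ⊢
          generalize d + b' = u' at hb' ⊢
          simp only [a, Om, if_true]
          have h01 : ∀ u u' : ZMod 2, u + u' = 1 → (u = 0 ∧ u' ≠ 0) ∨ (u ≠ 0 ∧ u' = 0) := by decide
          rcases h01 u u' hb' with ⟨h5, h6⟩ | ⟨h5, h6⟩
          · simp [h5, h6]
          · simp [h5, h6, hneg]
        rw [hO, mul_ite, mul_one, mul_zero]
        refine if_congr ?_ rfl rfl
        have e1 : (q g).1.e + (q g').1.e = 0 := by rw [h3.1, vadd_self]
        simp only [e1, h3.2, true_and, ctr_add]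
        constructor
        · intro h5
          have : ctr r (q g).1.w + V g + (ctr r (q g').1.w + V g') =
            (ctr r (q g).1.w + ctr r (q g').1.w) + (V g + V g') := by abel
          rw [this, h5, vadd_self]
        · intro h5
          have h6 : ctr r (q g).1.w + V g + (ctr r (q g').1.w + V g') =
            (ctr r (q g).1.w + ctr r (q g').1.w) + (V g + V g') := by abel
          rw [h6] at h5
          calc ctr r (q g).1.w + ctr r (q g').1.w = ctr r (q g).1.w + ctr r (q g').1.w +
                ((V g + V g') + (V g + V g')) := by rw [vadd_self, add_zero]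
            _ = (ctr r (q g).1.w + ctr r (q g').1.w + (V g + V g')) + (V g + V g') := by abel
            _ = V g + V g' := by rw [h5, zero_add]
      · have e2 : ¬ (z' = z' ∧ z' = z' ∧ (q g).1.e = (q g').1.e ∧ ta g + ta g' = t) := by
          rintro ⟨-, -, h5⟩; exact h3 h5
        rw [if_neg e2]
        symm
        refine Finset.sum_eq_zero fun r _ => ?_
        rw [if_neg, smul_zero]
        rintro ⟨h5, h6, -⟩
        refine h3 ⟨?_, h6⟩
        calc (q g).1.e = (q g).1.e + ((q g').1.e + (q g').1.e) := by rw [vadd_self, add_zero]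
          _ = ((q g).1.e + (q g').1.e) + (q g').1.e := by rw [add_assoc]
          _ = (q g').1.e := by rw [h5, zero_add]
    · have e2 : ¬ (z = x ∧ z' = x ∧ (q g).1.e = (q g').1.e ∧ ta g + ta g' = t) := by
        rintro ⟨h5, h6, -⟩; exact h1 ⟨h5, h6⟩
      rw [if_neg e2]
      symm
      refine Finset.sum_eq_zero fun r _ => ?_
      have hO : Om (a z (dot r (q g).1.e + be g)) (a z' (dot r (q g').1.e + be g')) = 0 := by
        by_cases h5 : z = x
        · have h6 : z' ≠ x := fun h6 => h1 ⟨h5, h6⟩
          simp [a, Om, h6]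
        · simp [a, Om, h5]
      rw [hO, zero_smul]
  simp only [key]
  exact lc_sum _ _ _ fun k _ => hR _ _ An_sq _ _ _ _

end Pool.Agent.H30R3
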