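import Pool.Agent.H30R3.Wrd2

set_option autoImplicit false

open scoped Classical

namespace Pool.Agent.H30R3

open Pool.Agent.FBZ

variable {K : Type} [Field K] {n : ℕ}

/-- the model group -/
abbrev WG2 (K : Type) [Field K] (n : ℕ) : Type := FBZ.Con (sdat (fdat (P := Q2) (tau2 K n)))

/-- inclusion of the acting group -/
noncomputable def inq2 : FBZ.Con (mdat K n) × Q2 →* WG2 K n where
  toFun q := ⟨0, (), q⟩
  map_one' := rfl
  map_mul' q q' := by
    refine FBZ.Con.ext ?_ (Subsingleton.elim _ _) rfl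
    simp

@[simp] theorem inq2_a (q : FBZ.Con (mdat K n) × Q2) : (inq2 q).a = 0 := rfl
@[simp] theorem inq2_q (q : FBZ.Con (mdat K n) × Q2) : (inq2 q).q = q := rfl

def pX : Q2 := ⟨1, 0, 0, 0⟩
def pT : Q2 := ⟨0, 1, 0, 0⟩
def cz (k : ℤ) : Q2 := ⟨0, 0, k, 0⟩

theorem cm_pXT : (cm pX pT) ^ 2 = cz 2 := by
  rw [pow_two]
  ext <;> simp [cm, pX, pT, cz]

theorem cz_zero : cz 0 = 1 := rfl

theorem cz_inv_mul (x y : ℤ) : (cz x)⁻¹ * cz y = cz (y - x) := by
  ext <;> simp [cz]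
  ring

theorem single_cz {V : Type} [AddCommGroup V] (f : V) (x : ℤ) :
    (Pi.single (1 : Q2) f : Q2 → V) (cz x) = if x = 0 then f else 0 := by
  by_cases hx : x = 0
  · subst hx
    rw [cz_zero, Pi.single_eq_same, if_pos rfl]
  · have : cz x ≠ (1 : Q2) := fun h => hx (congrArg Q2.z h)
    rw [Pi.single_eq_of_ne this, if_neg hx]

/-- the class function -/
noncomputable def ff2 (h2 : (2 : K) = 0) (n : ℕ) : WW2 K n := ⟨fun γ => γ.c, cfun_mem2 h2⟩

/-- the homomorphism refuting the law -/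
noncomputable def psi2 (h2 : (2 : K) = 0) (t : Kˣ) (n : ℕ) : FreeGroup ℕ →* WG2 K n :=
  FreeGroup.lift fun i => match i with
    | 0 => inq2 (1, pX)
    | 1 => inq2 (1, pT)
    | 2 => ⟨Pi.single 1 (ff2 h2 n), (), 1⟩
    | 3 => inq2 (1, cz 2)
    | 4 => inq2 (⟨Pi.single 1 1, 0, 1⟩, 1)
    | 5 => inq2 (⟨0, 0, (1, t)⟩, 1)
    | i + 6 => if h : i < n then inq2 (⟨0, 0, (⟨Pi.single ⟨i, h⟩ 1, 0⟩, 1)⟩, 1) else 1

/-- the translation action on a single coordinate -/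
theorem act_cz (g : Q2 → WW2 K n) (x y : ℤ) :
    (sdat (fdat (P := Q2) (tau2 K n))).pe (1, cz x) g (cz y) = g (cz (y - x)) := by
  show fdat (tau2 K n) (1, cz x) g (cz y) = _
  rw [fdat_apply, map_one, cz_inv_mul, Module.End.one_apply]

theorem psi2_bw (h2 : (2 : K) = 0) (t : Kˣ) (n : ℕ) : psi2 h2 t n bw = inq2 (1, cz 2) := by
  have h0 : psi2 h2 t n (FreeGroup.of 0) = inq2 (1, pX) := by simp [psi2]
  have h1 : psi2 h2 t n (FreeGroup.of 1) = inq2 (1, pT) := by simp [psi2]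
  rw [bw, map_pow, map_cm, h0, h1, ← map_cm, ← map_pow]
  congr 1
  refine Prod.ext ?_ cm_pXT
  show (cm (1 : FBZ.Con (mdat K n)) 1) ^ 2 = 1
  simp [cm]

theorem psi2_ww (h2 : (2 : K) = 0) (t : Kˣ) (n : ℕ) : (psi2 h2 t n ww).q = 1 ∧
    ∀ y, (psi2 h2 t n ww).a (cz y) =
      ((if y = 0 then ff2 h2 n else 0) - (if y - 2 = 0 then ff2 h2 n else 0)) -
      ((if y - 2 = 0 then ff2 h2 n else 0) - (if y - 2 - 2 = 0 then ff2 h2 n else 0)) := by
  have e2 : psi2 h2 t n (FreeGroup.of 2) = ⟨Pi.single 1 (ff2 h2 n), (), 1⟩ := by simp [psi2]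
  have e3 : psi2 h2 t n (FreeGroup.of 3) = inq2 (1, cz 2) := by simp [psi2]
  rw [ww, map_cm, map_cm, e2, e3]
  set x : WG2 K n := ⟨Pi.single 1 (ff2 h2 n), (), 1⟩ with hx
  have hxq : x.q = 1 := rfl
  have hq1 : (cm x (inq2 (1, cz 2))).q = 1 := by
    rw [cm_q, hxq]; exact cm_eq_one (by rw [one_mul, mul_one])
  constructor
  · rw [cm_q, hq1]; exact cm_eq_one (by rw [one_mul, mul_one])
  · intro y
    rw [cm_a1 _ _ hq1, cm_a1 _ _ hxq, inq2_q]
    simp only [Pi.sub_apply, act_cz]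
    have hxa : ∀ k, x.a (cz k) = if k = 0 then ff2 h2 n else 0 := fun k => single_cz _ _
    simp only [hxa]

theorem psi2_vw (h2 : (2 : K) = 0) (t : Kˣ) (n : ℕ) : (psi2 h2 t n vw2).q = 1 ∧
    (psi2 h2 t n vw2).a (cz 0) = ff2 h2 n := by
  obtain ⟨hq, ha⟩ := psi2_ww h2 t n
  have h1 := psi2_bw h2 t n
  rw [vw2, map_cm, map_cm, h1]
  have hq1 : (cm (psi2 h2 t n ww) (inq2 (1, cz 2))).q = 1 := by
    rw [cm_q, hq]; exact cm_eq_one (by rw [one_mul, mul_one])
  constructor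
  · rw [cm_q, hq1]; exact cm_eq_one (by rw [one_mul, mul_one])
  · rw [cm_a1 _ _ hq1, cm_a1 _ _ hq, inq2_q]
    simp only [Pi.sub_apply, act_cz, ha]
    norm_num

/-! ### the factors coming from the model -/

theorem cm_inq2 (x y : FBZ.Con (mdat K n) × Q2) : cm (inq2 x) (inq2 y) = inq2 (cm x y) :=
  (map_cm inq2 x y).symm

/-- the value of the word `aw2` -/
theorem psi2_aw (h2 : (2 : K) = 0) (t : Kˣ) (n : ℕ) : ∃ A : FBZ.Con (mdat K n),
    psi2 h2 t n aw2 = inq2 (A, 1) ∧ A.q = 1 ∧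
    A.a = Pi.single 1 ((1 - (t : K)) ^ 2) := by
  have e4 : psi2 h2 t n (FreeGroup.of 4) = inq2 (⟨Pi.single 1 1, 0, 1⟩, 1) := by simp [psi2]
  have e5 : psi2 h2 t n (FreeGroup.of 5) = inq2 (⟨0, 0, (1, t)⟩, 1) := by simp [psi2]
  set P : FBZ.Con (mdat K n) := ⟨Pi.single 1 1, 0, 1⟩ with hP
  set R : FBZ.Con (mdat K n) := ⟨0, 0, (1, t)⟩ with hR
  have hPq : P.q = 1 := rfl
  have hPa : P.a = Pi.single 1 1 := rfl
  have hRq : R.q = (1, t) := rfl
  have key : ∀ (x : FBZ.Con (mdat K n)) (r : K), x.q = 1 → x.a = Pi.single 1 r →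
      (cm x R).q = 1 ∧ (cm x R).a = Pi.single 1 ((1 - (t : K)) * r) := by
    intro x r hxq hxa
    constructor
    · rw [cm_q, hxq]; exact cm_eq_one (by rw [one_mul, mul_one])
    · rw [cm_a1 _ _ hxq, hxa, hRq, mpe_single, mul_one]
      show (Pi.single 1 r : Hn n → K) - Pi.single 1 ((t : K) * r) = _
      rw [← Pi.single_sub, sub_mul, one_mul]
  obtain ⟨h1, h1'⟩ := key P 1 hPq hPa
  obtain ⟨h3, h3'⟩ := key _ _ h1 h1'
  refine ⟨cm (cm P R) R, ?_, h3, ?_⟩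
  · rw [aw2, map_cm, map_cm, e4, e5, cm_inq2, cm_inq2]
    have hcc : cm (cm (P, (1 : Q2)) (R, 1)) (R, 1) = (cm (cm P R) R, (1 : Q2)) := by
      simp [cm]
    exact congrArg inq2 hcc
  · rw [h3']
    congr 1
    ring

/-- the value of the word `cw` -/
theorem psi2_cw (h2 : (2 : K) = 0) (t : Kˣ) (n m : ℕ) (hm : m ≤ n) : ∃ C : FBZ.Con (mdat K n),
    psi2 h2 t n (cw m) = inq2 (C, 1) ∧ C.a = 0 ∧
    C.q = (⟨0, fun i j => if i = j ∧ i.val < m then 1 else 0⟩, 1) := by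
  induction m with
  | zero =>
    refine ⟨1, ?_, rfl, ?_⟩
    · simp only [cw, map_one]
      rfl
    · simp only [Con.one_q, Nat.not_lt_zero, and_false, if_false]
      rfl
  | succ m ih =>
    obtain ⟨C, hC, ih1, ih2⟩ := ih (by omega)
    have hX : psi2 h2 t n (FreeGroup.of (m + 6)) =
        inq2 ((⟨0, 0, (⟨Pi.single ⟨m, by omega⟩ 1, 0⟩, 1)⟩ : FBZ.Con (mdat K n)), 1) := by
      have : m < n := by omega
      simp [psi2, this]
    refine ⟨C * (⟨0, 0, (⟨Pi.single ⟨m, by omega⟩ 1, 0⟩, 1)⟩ : FBZ.Con (mdat K n)) ^ 2, ?_, ?_, ?_⟩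
    · rw [cw, map_mul, map_pow, hX, hC, ← map_pow, ← map_mul]
      rfl
    · simp [ih1, pow_two]
    · simp only [pow_two, Con.mul_q, ih2]
      refine Prod.ext (Hn.ext ?_ ?_) ?_
      · simp [vadd_self]
      · funext i j
        simp only [Prod.mk_mul_mk, Hn.mul_w, Hn.mul_e, Pi.add_apply, Pi.zero_apply,
          zero_mul, add_zero, zero_add, Pi.single_apply, mul_ite, mul_one, mul_zero, Fin.ext_iff]
        by_cases h1 : i.val = j.val
        · by_cases h3 : j.val = m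
          · simp [h1, h3]
          · by_cases h4 : j.val < m
            · simp [h1, h3, h4, Nat.lt_succ_of_lt h4]
            · have : ¬ j.val < m + 1 := by omega
              simp [h1, h3, h4, this]
        · by_cases h3 : j.val = m
          · have h5 : ¬ i.val = m := by omega
            simp [h3, h5]
          · simp [h1, h3]
      · simp

/-- the law fails in the model group -/
theorem Lw2_fails (h2 : (2 : K) = 0) (t : Kˣ) (ht : ∀ m : ℤ, t ^ m = 1 → m = 0) (n : ℕ) :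
    (psi2 h2 t n (Lw2 n)).a ≠ 0 := by
  intro hcon
  obtain ⟨hvq, hva⟩ := psi2_vw h2 t n
  obtain ⟨A, hA, hAq, hAa⟩ := psi2_aw h2 t n
  obtain ⟨C, hC, hCa, hCq⟩ := psi2_cw h2 t n n le_rfl
  have hcac : psi2 h2 t n (cw n * aw2 * (cw n)⁻¹) = inq2 (C * A * C⁻¹, 1) := by
    rw [map_mul, map_mul, map_inv, hA, hC, ← map_inv, ← map_mul, ← map_mul]
    have hcc : ((C, 1) * (A, 1) * (C, 1)⁻¹ : FBZ.Con (mdat K n) × Q2) = (C * A * C⁻¹, 1) :=
      Prod.ext rfl (by simp)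
    exact congrArg inq2 hcc
  rw [Lw2, map_cm, map_cm, hA, hcac] at hcon
  set v := psi2 h2 t n vw2 with hv
  set κ := (1 - (t : K)) ^ 2 with hκ
  have hq1 : (cm v (inq2 (A, 1))).q = 1 := by
    rw [cm_q, hvq]; exact cm_eq_one (by rw [one_mul, mul_one])
  rw [cm_a1 (cm v (inq2 (A, 1))) _ hq1, cm_a1 v (inq2 (A, 1)) hvq] at hcon
  set A' := C * A * C⁻¹ with hA'
  have h1 := congrFun hcon (cz 0)
  have h3 : ∀ (B : FBZ.Con (mdat K n)) (g : Q2 → WW2 K n),
      (sdat (fdat (P := Q2) (tau2 K n))).pe (inq2 (B, 1)).q g (cz 0) =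
        tau2 K n B (g (cz 0)) := by
    intro B g
    show fdat (tau2 K n) (B, 1) g (cz 0) = _
    rw [fdat_apply]
    simp
  rw [Pi.sub_apply, h3, Pi.sub_apply, h3, hva] at h1
  have h4 := congrFun (congrArg Subtype.val h1) (1 : FBZ.Con (mdat K n))
  have h5 : ((1 : FBZ.Con (mdat K n)).c - (1 * A).c) - ((1 * A').c - (1 * A' * A).c) = 0 := h4
  have hA'q : A'.q = 1 := by simp [hA', hAq]
  rw [one_mul, one_mul, Con.one_c, Con.mul_c A' A, hA'q, map_one, map_one, Module.End.one_apply,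
    Module.End.one_apply] at h5
  have hA'a : A'.a = Pi.single C.q.1 κ := by
    rw [hA', Con.mul_a, Con.mul_a, Con.inv_a, hCa, hAa, map_zero, neg_zero, map_zero, add_zero,
      zero_add, mpe_single, mul_one, hCq]
    simp
  have hphi : phi K C.q.1 1 = 1 := by
    rw [phi_symm, phi_eq, hCq]
    simp only [Hn.one_e, if_true, Hn.one_w, zero_add]
    refine Dc_one _ _ fun z hz => ?_
    rw [← hz]
    funext j
    simp [ctr]
  rw [hAa, hA'a, mom_single, hphi] at h5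
  have h6 : κ * κ = 0 := by linear_combination h5
  have h7 : κ = 0 := mul_self_eq_zero.mp h6
  have h8 : (1 - (t : K)) = 0 := pow_eq_zero_iff (by norm_num) |>.mp h7
  have h9 : t ^ (1 : ℤ) = 1 := by
    rw [zpow_one]
    refine Units.ext ?_
    rw [Units.val_one]
    linear_combination -h8
  have := ht 1 h9
  omega

end Pool.Agent.H30R3
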