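import Pool.Agent.H30R3.Fai2
import Pool.Agent.FBZ.Endz

set_option autoImplicit false

open scoped Classical

namespace Pool.Agent.H30R3

open Pool.Agent.FBZ
open scoped commutatorElement

section

variable {K : Type} [Field K]

theorem final2 (h2 : (2 : K) = 0) (t : Kˣ) (ht : ∀ m : ℤ, t ^ m = 1 → m = 0)
    (S : Finset (FreeGroup ℕ)) (hS : ∀ s ∈ S, ∀ f : ℕ → GG2, FreeGroup.lift f s = 1) :
    ∃ n : ℕ, Lw2 n ∉ Subgroup.normalClosure
      {u : FreeGroup ℕ | ∃ s ∈ S, ∃ φ : FreeGroup ℕ →* FreeGroup ℕ, φ s = u} := by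
  obtain ⟨N, hN⟩ := letters_fin S
  refine ⟨N + 1, fun hmem => ?_⟩
  have hnorm : ((trv (fdat (P := Q2) (tau2 K (N + 1)))).comap (psi2 h2 t (N + 1))).Normal :=
    (trv_normal _).comap _
  have hle : Subgroup.normalClosure
      {u : FreeGroup ℕ | ∃ s ∈ S, ∃ φ : FreeGroup ℕ →* FreeGroup ℕ, φ s = u} ≤
      (trv (fdat (P := Q2) (tau2 K (N + 1)))).comap (psi2 h2 t (N + 1)) := by
    apply Subgroup.normalClosure_le_normal
    rintro _ ⟨s, hs, φ, rfl⟩
    refine law_transfer2 (Nat.lt_succ_self N) s ?_ ?_ ((psi2 h2 t (N + 1)).comp φ)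
    · intro f
      have h1 := hS s hs fun i => f (FreeGroup.of i)
      have h3 : FreeGroup.lift (fun i => f (FreeGroup.of i)) = f := by
        apply FreeGroup.ext_hom
        intro i
        simp
      rw [h3] at h1
      exact h1
    · intro H _ ψ ψ' hψ
      exact hN H ψ ψ' hψ s hs
  exact Lw2_fails h2 t ht (N + 1) (hle hmem).1

end

/-! ### torsion -/

theorem con_tf {Q E Z : Type} [Group Q] [AddCommGroup E] [AddCommGroup Z] (D : Dat ℤ Q E Z)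
    (hQ : ∀ (q : Q) (n : ℕ), n ≠ 0 → q ^ n = 1 → q = 1)
    (hE : ∀ (e : E) (n : ℕ), n ≠ 0 → n • e = 0 → e = 0)
    (hZ : ∀ (e : Z) (n : ℕ), n ≠ 0 → n • e = 0 → e = 0)
    (x : FBZ.Con D) (n : ℕ) (hn : n ≠ 0) (h : x ^ n = 1) : x = 1 := by
  have hq : x.q = 1 := by
    refine hQ _ n hn ?_
    have : (x ^ n).q = x.q ^ n := map_pow (Con.proj D) x n
    rw [← this, h, Con.one_q]
  have ha : ∀ k : ℕ, (x ^ k).q = 1 ∧ (x ^ k).a = k • x.a := by
    intro k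
    induction k with
    | zero => exact ⟨by rw [pow_zero, Con.one_q], by rw [pow_zero, Con.one_a, zero_smul]⟩
    | succ k ih =>
      obtain ⟨h1, h2⟩ := ih
      refine ⟨by rw [pow_succ, Con.mul_q, h1, hq, mul_one], ?_⟩
      rw [pow_succ, Con.mul_a, h1, h2, map_one, Module.End.one_apply, succ_nsmul]
  have ha0 : x.a = 0 := by
    refine hE _ n hn ?_
    rw [← (ha n).2, h, Con.one_a]
  have hc : ∀ k : ℕ, (x ^ k).c = k • x.c := by
    intro k
    induction k with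
    | zero => rw [pow_zero, Con.one_c, zero_smul]
    | succ k ih =>
      rw [pow_succ, Con.mul_c, (ha k).1, (ha k).2, ih, map_one, Module.End.one_apply, ha0,
        smul_zero, map_zero, LinearMap.zero_apply, add_zero, succ_nsmul]
  have hc0 : x.c = 0 := by
    refine hZ _ n hn ?_
    rw [← hc n, h, Con.one_c]
  exact FBZ.Con.ext ha0 hc0 hq

theorem q2_tf (q : Q2) (n : ℕ) (hn : n ≠ 0) (h : q ^ n = 1) : q = 1 := by
  have hn' : (n : ℤ) ≠ 0 := by exact_mod_cast hn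
  have h1 : ∀ k : ℕ, (q ^ k).s = k * q.s ∧ (q ^ k).y = k * q.y ∧ (q ^ k).k = k * q.k := by
    intro k
    induction k with
    | zero => simp
    | succ k ih =>
      obtain ⟨e1, e2, e3⟩ := ih
      rw [pow_succ]
      refine ⟨?_, ?_, ?_⟩
      · rw [Q2.mul_s, e1]; push_cast; ring
      · rw [Q2.mul_y, e2]; push_cast; ring
      · rw [Q2.mul_k, e3]; push_cast; ring
  obtain ⟨e1, e2, e3⟩ := h1 n
  rw [h] at e1 e2 e3
  have hs : q.s = 0 := by
    rcases mul_eq_zero.mp e1.symm with h | h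
    · exact absurd h hn'
    · exact h
  have hy : q.y = 0 := by
    rcases mul_eq_zero.mp e2.symm with h | h
    · exact absurd h hn'
    · exact h
  have hk : q.k = 0 := by
    rcases mul_eq_zero.mp e3.symm with h | h
    · exact absurd h hn'
    · exact h
  have h2 : ∀ k : ℕ, (q ^ k).z = k * q.z := by
    intro k
    induction k with
    | zero => simp
    | succ k ih =>
      rw [pow_succ, Q2.mul_z, ih, hy]; push_cast; ring
  have e4 := h2 n
  rw [h] at e4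
  have hz : q.z = 0 := by
    rcases mul_eq_zero.mp e4.symm with h | h
    · exact absurd h hn'
    · exact h
  exact Q2.ext hs hy hz hk

theorem oo_tf (x : OO) (n : ℕ) (hn : n ≠ 0) (h : n • x = 0) : x = 0 := by
  rw [nsmul_eq_mul] at h
  have h0 : (n : OO) ≠ 0 := by exact_mod_cast hn
  rcases mul_eq_zero.mp h with h | h
  · exact absurd h h0
  · exact h

theorem gd_tf (x : FBZ.Con gdat2) (n : ℕ) (hn : n ≠ 0) (h : x ^ n = 1) : x = 1 := by
  refine con_tf gdat2 q2_tf ?_ ?_ x n hn h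
  · intro e n hn h
    funext m
    have h1 := congrFun h m
    refine Prod.ext ?_ ?_
    · exact oo_tf _ n hn (congrArg Prod.fst h1)
    · exact oo_tf _ n hn (congrArg Prod.snd h1)
  · intro e n hn h
    funext m
    exact oo_tf _ n hn (congrFun h m)

theorem gg_tf (x : GG2) (n : ℕ) (hn : n ≠ 0) (h : x ^ n = 1) : x = 1 := by
  refine con_tf _ ?_ ?_ ?_ x n hn h
  · rintro ⟨a, b⟩ n hn h
    refine Prod.ext ?_ ?_
    · exact gd_tf a n hn (congrArg Prod.fst h)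
    · exact q2_tf b n hn (congrArg Prod.snd h)
  · intro e n hn h
    funext p
    have h1 := congrFun h p
    refine Prod.ext ?_ (Prod.ext ?_ ?_)
    · have h3 : n • (e p).1 = 0 := congrArg Prod.fst h1
      rw [nsmul_eq_mul] at h3
      rcases mul_eq_zero.mp h3 with h4 | h4
      · exact absurd h4 (by exact_mod_cast hn)
      · exact h4
    · funext m
      have h3 := congrFun (congrArg (fun v => v.2.1) h1) m
      refine Prod.ext ?_ ?_
      · exact oo_tf _ n hn (congrArg Prod.fst h3)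
      · exact oo_tf _ n hn (congrArg Prod.snd h3)
    · funext m
      exact oo_tf _ n hn (congrFun (congrArg (fun v => v.2.2) h1) m)
  · intro e n _ _
    exact Subsingleton.elim _ _

/-! ### the lower central series -/

theorem cm_gen {Q A : Type} [Group Q] [AddCommGroup A] (ρ : Q →* Module.End ℤ A)
    (x y : FBZ.Con (sdat ρ)) : (cm x y).a =
      x.a + ρ x.q y.a - ρ (x.q * y.q * x.q⁻¹) x.a - ρ (cm x.q y.q) y.a := by
  simp only [cm, Con.mul_a, Con.mul_q, Con.inv_a, map_neg]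
  have e1 : (sdat ρ).pe = ρ := rfl
  rw [e1]
  simp only [← Module.End.mul_apply, ← map_mul]
  abel

/-- the projection to the nilpotent quotient -/
def prq : GG2 →* Q2 × Q2 :=
  (MonoidHom.prodMap (Con.proj gdat2) (MonoidHom.id Q2)).comp (Con.proj _)

theorem prq_apply (x : GG2) : prq x = (x.q.1.q, x.q.2) := rfl

theorem q22_lcs : (⊤ : Subgroup (Q2 × Q2)).lowerCentralSeries 2 = ⊥ := by
  apply Subgroup.lowerCentralSeries_succ_eq_bot
  rw [Subgroup.lowerCentralSeries_succ, Subgroup.commutator_le]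
  rintro x _ y _
  rw [Subgroup.mem_center_iff]
  intro z
  have h : cm (cm x y) z = 1 := by
    refine Prod.ext ?_ ?_
    · exact q2_class x.1 y.1 z.1
    · exact q2_class x.2 y.2 z.2
  have h' : ⁅x, y⁆ * z = z * ⁅x, y⁆ := by
    have e : cm (cm x y) z = ⁅x, y⁆ * z * ⁅x, y⁆⁻¹ * z⁻¹ := rfl
    rw [e] at h
    have := mul_inv_eq_one.mp h
    rw [mul_inv_eq_iff_eq_mul] at this
    exact this
  exact h'.symm

theorem lcs2_le : (⊤ : Subgroup GG2).lowerCentralSeries 2 ≤ prq.ker := by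
  rw [← Subgroup.map_eq_bot_iff, Subgroup.map_lowerCentralSeries, eq_bot_iff, ← q22_lcs]
  exact Subgroup.lowerCentralSeries_mono 2 le_top

def K1 : Subgroup GG2 where
  carrier := {x | (∀ p, (x.a p).1 = 0) ∧ x.q.1.a = 0 ∧ x.q.1.q = 1 ∧ x.q.2 = 1}
  one_mem' := ⟨fun p => rfl, rfl, rfl, rfl⟩
  mul_mem' := by
    rintro x y ⟨h1, h2, h3, h4⟩ ⟨k1, k2, k3, k4⟩
    refine ⟨fun p => ?_, ?_, ?_, ?_⟩
    · show (x.a p + Con.rep gdat2 x.q.1 (y.a ((x.q.2)⁻¹ * p))).1 = 0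
      rw [Prod.fst_add, h1, Con.rep_apply, k1, zero_add]
    · show (x.q.1 * y.q.1).a = 0
      rw [Con.mul_a, h2, k2, map_zero, add_zero]
    · show (x.q.1 * y.q.1).q = 1
      rw [Con.mul_q, h3, k3, mul_one]
    · show x.q.2 * y.q.2 = 1
      rw [h4, k4, mul_one]
  inv_mem' := by
    rintro x ⟨h1, h2, h3, h4⟩
    refine ⟨fun p => ?_, ?_, ?_, ?_⟩
    · show (-(Con.rep gdat2 (x.q⁻¹).1 (x.a (((x.q⁻¹).2)⁻¹ * p)))).1 = 0
      rw [Prod.fst_neg, Con.rep_apply, h1, neg_zero]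
    · show (x.q.1⁻¹).a = 0
      rw [Con.inv_a, h2, map_zero, neg_zero]
    · show (x.q.1⁻¹).q = 1
      rw [Con.inv_q, h3, inv_one]
    · show x.q.2⁻¹ = 1
      rw [h4, inv_one]

def K2 : Subgroup GG2 where
  carrier := {x | (∀ p, (x.a p).1 = 0 ∧ (x.a p).2.1 = 0) ∧ x.q = 1}
  one_mem' := ⟨fun p => ⟨rfl, rfl⟩, rfl⟩
  mul_mem' := by
    rintro x y ⟨h1, h2⟩ ⟨k1, k2⟩
    refine ⟨fun p => ?_, ?_⟩
    · have e : (x * y).a p = x.a p + y.a p := by
        show x.a p + (fdat (P := Q2) (Con.rep gdat2) x.q y.a) p = _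
        rw [h2, map_one]
        rfl
      rw [e]
      constructor
      · rw [Prod.fst_add, (h1 p).1, (k1 p).1, add_zero]
      · rw [Prod.snd_add, Prod.fst_add, (h1 p).2, (k1 p).2, add_zero]
    · rw [Con.mul_q, h2, k2, mul_one]
  inv_mem' := by
    rintro x ⟨h1, h2⟩
    refine ⟨fun p => ?_, ?_⟩
    · have e : (x⁻¹).a p = -(x.a p) := by
        show (-(fdat (P := Q2) (Con.rep gdat2) (x.q⁻¹) x.a)) p = _
        rw [h2, inv_one, map_one]
        rfl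
      rw [e]
      constructor
      · rw [Prod.fst_neg, (h1 p).1, neg_zero]
      · rw [Prod.snd_neg, Prod.fst_neg, (h1 p).2, neg_zero]
    · rw [Con.inv_q, h2, inv_one]

theorem fd_apply (γ : FBZ.Con gdat2) (f : Q2 → ℤ × (ZMod 2 → OO × OO) × (ZMod 2 → OO)) (p : Q2) :
    fdat (P := Q2) (Con.rep gdat2) (γ, 1) f p = Con.rep gdat2 γ (f p) := by
  rw [fdat_apply]
  simp

theorem rep1 (γ : FBZ.Con gdat2) (hγ : γ.q = 1) (v : ℤ × (ZMod 2 → OO × OO) × (ZMod 2 → OO)) :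
    Con.rep gdat2 γ v =
      (v.1, v.1 • γ.a + v.2.1, v.1 • γ.c + v.2.2 + gdat2.om γ.a v.2.1) := by
  rw [Con.rep_apply, hγ, map_one, map_one]
  rfl

theorem mem_K1 (x : GG2) : x ∈ K1 ↔
    (∀ p, (x.a p).1 = 0) ∧ x.q.1.a = 0 ∧ x.q.1.q = 1 ∧ x.q.2 = 1 := Iff.rfl

theorem mem_K2 (x : GG2) : x ∈ K2 ↔
    (∀ p, (x.a p).1 = 0 ∧ (x.a p).2.1 = 0) ∧ x.q = 1 := Iff.rfl

theorem mem_prq (x : GG2) : x ∈ prq.ker ↔ x.q.1.q = 1 ∧ x.q.2 = 1 := by
  rw [MonoidHom.mem_ker, prq_apply, Prod.mk_eq_one]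

theorem comm_le_of {G : Type} [Group G] (A B C : Subgroup G)
    (h : ∀ x ∈ A, ∀ y ∈ B, cm x y ∈ C) : ⁅A, B⁆ ≤ C := by
  rw [Subgroup.commutator_le]
  exact h

theorem cm_val (x y : GG2) (γ δ : FBZ.Con gdat2) (hx : x.q = (γ, 1)) (hy : y.q = (δ, 1))
    (p : Q2) : (cm x y).a p = x.a p + Con.rep gdat2 γ (y.a p) -
      Con.rep gdat2 (γ * δ * γ⁻¹) (x.a p) - Con.rep gdat2 (cm γ δ) (y.a p) := by
  rw [cm_gen]
  have e1 : (cm x.q y.q) = (cm γ δ, 1) := by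
    rw [hx, hy]
    refine Prod.ext rfl ?_
    show cm (1 : Q2) 1 = 1
    exact cm_eq_one rfl
  have e2 : x.q * y.q * x.q⁻¹ = (γ * δ * γ⁻¹, 1) := by
    rw [hx, hy]
    refine Prod.ext rfl ?_
    simp
  rw [e1, e2, hx]
  simp only [Pi.sub_apply, Pi.add_apply, fd_apply]

theorem comm0 : ⁅prq.ker, prq.ker⁆ ≤ K1 := by
  apply comm_le_of
  intro x hx y hy
  rw [mem_prq] at hx hy
  obtain ⟨hx1, hx2⟩ := hx
  obtain ⟨hy1, hy2⟩ := hy
  rw [mem_K1]
  obtain ⟨γ, hγ⟩ : ∃ γ, x.q = (γ, 1) := ⟨x.q.1, Prod.ext rfl hx2⟩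
  obtain ⟨δ, hδ⟩ : ∃ δ, y.q = (δ, 1) := ⟨y.q.1, Prod.ext rfl hy2⟩
  rw [hγ] at hx1
  rw [hδ] at hy1
  have hq : (cm x y).q = (cm γ δ, 1) := by
    rw [cm_q, hγ, hδ]
    refine Prod.ext rfl ?_
    show cm (1 : Q2) 1 = 1
    exact cm_eq_one rfl
  have hgd : (γ * δ * γ⁻¹).q = 1 := by
    rw [Con.mul_q, Con.mul_q, Con.inv_q]
    have : γ.q = 1 := hx1
    have : δ.q = 1 := hy1
    simp [*]
  have hcq : (cm γ δ).q = 1 := by
    rw [cm_q]
    have h1 : γ.q = 1 := hx1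
    have h2 : δ.q = 1 := hy1
    rw [h1, h2]
    exact cm_eq_one rfl
  refine ⟨fun p => ?_, ?_, ?_, ?_⟩
  · rw [cm_gen]
    have e1 : (cm x.q y.q) = (cm γ δ, 1) := by rw [← hq, cm_q]
    have e2 : x.q * y.q * x.q⁻¹ = (γ * δ * γ⁻¹, 1) := by
      rw [hγ, hδ]
      refine Prod.ext rfl ?_
      simp
    rw [e1, e2, hγ]
    simp only [Pi.sub_apply, Pi.add_apply, fd_apply]
    rw [rep1 γ hx1, rep1 _ hgd, rep1 _ hcq]
    simp only [Prod.fst_sub, Prod.fst_add]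
    ring
  · rw [hq]
    show (cm γ δ).a = 0
    rw [cm_a1 γ δ hx1]
    have h2 : δ.q = 1 := hy1
    rw [h2, map_one, Module.End.one_apply, sub_self]
  · rw [hq]
    exact hcq
  · rw [hq]

theorem vec1 (γ δ : FBZ.Con gdat2) (h1 : γ.q = 1) (h2 : γ.a = 0) (h3 : δ.q = 1)
    (v w : ℤ × (ZMod 2 → OO × OO) × (ZMod 2 → OO)) (hv : v.1 = 0) :
    (v + Con.rep gdat2 γ w - Con.rep gdat2 δ v - w).1 = 0 ∧
    (v + Con.rep gdat2 γ w - Con.rep gdat2 δ v - w).2.1 = 0 := by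
  rw [rep1 γ h1, rep1 δ h3]
  constructor
  · simp only [Prod.fst_sub, Prod.fst_add]
    ring
  · simp only [Prod.snd_sub, Prod.snd_add, Prod.fst_sub, Prod.fst_add, h2, hv, smul_zero,
      zero_smul, zero_add]
    abel

theorem con_comm (γ δ : FBZ.Con gdat2) (h1 : γ.q = 1) (h2 : γ.a = 0) (h3 : δ.q = 1) :
    γ * δ = δ * γ := by
  refine FBZ.Con.ext ?_ ?_ ?_
  · rw [Con.mul_a, Con.mul_a, h2, h1, h3, map_one]
    simp
  · rw [Con.mul_c, Con.mul_c, h2, h1, h3, map_one, map_one]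
    simp [add_comm]
  · rw [Con.mul_q, Con.mul_q, h1, h3]

theorem comm1 : ⁅K1, prq.ker⁆ ≤ K2 := by
  apply comm_le_of
  intro x hx y hy
  rw [mem_K1] at hx
  obtain ⟨h1, h2, h3, h4⟩ := hx
  rw [mem_prq] at hy
  obtain ⟨hy1, hy2⟩ := hy
  rw [mem_K2]
  have hγ : x.q = (x.q.1, 1) := Prod.ext rfl h4
  have hδ : y.q = (y.q.1, 1) := Prod.ext rfl hy2
  have hcomm : x.q.1 * y.q.1 = y.q.1 * x.q.1 := con_comm _ _ h3 h2 hy1
  have hc1 : cm x.q.1 y.q.1 = 1 := cm_eq_one hcomm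
  constructor
  · intro p
    rw [cm_val x y _ _ hγ hδ, hc1, hcomm, mul_inv_cancel_right, map_one, Module.End.one_apply]
    exact vec1 _ _ h3 h2 hy1 (x.a p) (y.a p) (h1 p)
  · rw [cm_q]
    refine Prod.ext hc1 ?_
    show cm x.q.2 y.q.2 = 1
    rw [h4, hy2]
    exact cm_eq_one rfl

theorem comm2 : ⁅K2, prq.ker⁆ ≤ ⊥ := by
  apply comm_le_of
  intro x hx y hy
  rw [mem_K2] at hx
  obtain ⟨h1, h2⟩ := hx
  rw [mem_prq] at hy
  obtain ⟨hy1, hy2⟩ := hy
  obtain ⟨δ, hδ⟩ : ∃ δ, y.q = (δ, 1) := ⟨y.q.1, Prod.ext rfl hy2⟩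
  rw [hδ] at hy1
  have hy1' : δ.q = 1 := hy1
  have hq : (cm x y).q = 1 := by
    rw [cm_q, h2]
    exact cm_eq_one (by rw [one_mul, mul_one])
  have e1 : (cm x.q y.q) = 1 := by rw [← hq, cm_q]
  have ha : (cm x y).a = 0 := by
    rw [cm_gen, e1, h2, map_one, one_mul, inv_one, mul_one, hδ]
    funext p
    simp only [Pi.sub_apply, Pi.add_apply, fd_apply, Module.End.one_apply, Pi.zero_apply]
    rw [rep1 _ hy1', (h1 p).1, (h1 p).2]
    refine Prod.ext ?_ (Prod.ext ?_ ?_)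
    · simp [(h1 p).1]
    · simp [(h1 p).2]
    · simp
  rw [Subgroup.mem_bot]
  exact FBZ.Con.ext ha (Subsingleton.elim _ _) hq

theorem gg_lcs : ((⊤ : Subgroup GG2).lowerCentralSeries 2).lowerCentralSeries 3 = ⊥ := by
  rw [eq_bot_iff]
  refine (Subgroup.lowerCentralSeries_mono 3 lcs2_le).trans ?_
  show ⁅⁅⁅prq.ker, prq.ker⁆, prq.ker⁆, prq.ker⁆ ≤ ⊥
  refine le_trans (Subgroup.commutator_mono (le_trans (Subgroup.commutator_mono comm0 le_rfl) comm1)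
    le_rfl) comm2

end Pool.Agent.H30R3
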