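import Pool.Agent.H30R3.Can2
import Pool.Agent.FBZ.Trn

set_option autoImplicit false

open scoped Classical

namespace Pool.Agent.H30R3

open Pool.Agent.FBZ

variable {K : Type} [Field K] {n : ℕ}

/-! ### the acting group -/

/-- a torsion-free nilpotent group of class two: the integral Heisenberg group times `ℤ` -/
@[ext] structure Q2 where
  s : ℤ
  y : ℤ
  z : ℤ
  k : ℤ

namespace Q2

instance : Mul Q2 := ⟨fun a b => ⟨a.s + b.s, a.y + b.y, a.z + b.z + a.s * b.y, a.k + b.k⟩⟩
instance : One Q2 := ⟨⟨0, 0, 0, 0⟩⟩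
instance : Inv Q2 := ⟨fun a => ⟨-a.s, -a.y, -a.z + a.s * a.y, -a.k⟩⟩

@[simp] theorem mul_s (a b : Q2) : (a * b).s = a.s + b.s := rfl
@[simp] theorem mul_y (a b : Q2) : (a * b).y = a.y + b.y := rfl
@[simp] theorem mul_z (a b : Q2) : (a * b).z = a.z + b.z + a.s * b.y := rfl
@[simp] theorem mul_k (a b : Q2) : (a * b).k = a.k + b.k := rfl
@[simp] theorem one_s : (1 : Q2).s = 0 := rfl
@[simp] theorem one_y : (1 : Q2).y = 0 := rfl
@[simp] theorem one_z : (1 : Q2).z = 0 := rfl
@[simp] theorem one_k : (1 : Q2).k = 0 := rfl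
@[simp] theorem inv_s (a : Q2) : (a⁻¹).s = -a.s := rfl
@[simp] theorem inv_y (a : Q2) : (a⁻¹).y = -a.y := rfl
@[simp] theorem inv_z (a : Q2) : (a⁻¹).z = -a.z + a.s * a.y := rfl
@[simp] theorem inv_k (a : Q2) : (a⁻¹).k = -a.k := rfl

instance : Group Q2 := Group.ofLeftAxioms
  (by
    intro a b c
    ext
    · simp [add_assoc]
    · simp [add_assoc]
    · simp only [mul_z, mul_s, mul_y]; ring
    · simp [add_assoc])
  (by
    intro a
    ext <;> simp)
  (by
    intro a
    ext
    · simp
    · simp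
    · simp only [mul_z, inv_z, inv_s, one_z]; ring
    · simp)

end Q2

abbrev Q1 : Type := Wr C2 × CC

/-- the action factors through a finite extension of the integers -/
def th : Q2 →* Q1 where
  toFun q := (⟨fun m => Multiplicative.ofAdd ((q.z : ZMod 2) + (q.y : ZMod 2) * m), (q.s : ZMod 2)⟩,
    Multiplicative.ofAdd q.k)
  map_one' := by
    refine Prod.ext (Wr.ext (funext fun m => ?_) ?_) ?_
    · simp
    · simp
    · simp
  map_mul' q q' := by
    refine Prod.ext (Wr.ext (funext fun m => ?_) ?_) ?_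
    · show Multiplicative.ofAdd _ = Multiplicative.ofAdd _ * Multiplicative.ofAdd _
      rw [← ofAdd_add]
      congr 1
      simp only [Q2.mul_z, Q2.mul_y]
      push_cast
      ring
    · simp
    · simp

theorem th_surj (x : Q1) : ∃ q : Q2, th q = x := by
  obtain ⟨⟨b, s⟩, k⟩ := x
  obtain ⟨s', hs⟩ := ZMod.intCast_surjective s
  obtain ⟨z', hz⟩ := ZMod.intCast_surjective (Multiplicative.toAdd (b 0))
  obtain ⟨y', hy⟩ := ZMod.intCast_surjective
    (Multiplicative.toAdd (b 0) + Multiplicative.toAdd (b 1))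
  refine ⟨⟨s', y', z', Multiplicative.toAdd k⟩, ?_⟩
  refine Prod.ext (Wr.ext (funext fun m => ?_) hs) ?_
  · show Multiplicative.ofAdd (((z' : ℤ) : ZMod 2) + ((y' : ℤ) : ZMod 2) * m) = b m
    rw [hz, hy]
    have h : ∀ m : ZMod 2, m = 0 ∨ m = 1 := by decide
    rcases h m with rfl | rfl
    · rw [mul_zero, add_zero]
      rfl
    · have e : ∀ u v : ZMod 2, u + (u + v) * 1 = v := by decide
      rw [e]
      rfl
  · rfl

/-- the data of the integral representation, over `Q1` -/
def gdat1 : Dat ℤ Q1 (ZMod 2 → OO × OO) (ZMod 2 → OO) where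
  pe :=
    { toFun := fun q =>
        { toFun := fun a m => ((sg (q.1.b m) * up q.2 : OOˣ) : OO) • a (m + q.1.s)
          map_add' := by intro a b; funext x; simp [smul_add]
          map_smul' := by
            intro r a; funext x
            exact smul_comm ((sg (q.1.b x) * up q.2 : OOˣ) : OO) r (a (x + q.1.s)) }
      map_one' := by
        refine LinearMap.ext fun a => ?_
        funext x
        simp
      map_mul' := by
        intro q q'
        refine LinearMap.ext fun a => ?_
        funext x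
        simp only [Prod.fst_mul, Prod.snd_mul, Wr.mul_b, Wr.mul_s, map_mul, LinearMap.coe_mk,
          AddHom.coe_mk, Module.End.mul_apply, smul_smul, Units.val_mul, add_assoc]
        congr 1
        ring }
  pz :=
    { toFun := fun q =>
        { toFun := fun z m => (up q.2 : OO) ^ 2 * z (m + q.1.s)
          map_add' := by intro a b; funext x; simp [mul_add]
          map_smul' := by intro r a; funext x; simp [mul_left_comm] }
      map_one' := by
        refine LinearMap.ext fun a => ?_
        funext x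
        simp
      map_mul' := by
        intro q q'
        refine LinearMap.ext fun a => ?_
        funext x
        simp [mul_pow, mul_assoc, add_assoc] }
  om := LinearMap.mk₂ ℤ (fun a b => fun m => (a m).1 * (b m).2 - (a m).2 * (b m).1)
    (by intro a a' b; funext m; simp; ring)
    (by intro r a b; funext m; simp; ring)
    (by intro a b b'; funext m; simp; ring)
    (by intro r a b; funext m; simp; ring)
  eqv := by
    intro q a b
    funext m
    simp only [LinearMap.mk₂_apply, LinearMap.coe_mk, AddHom.coe_mk, MonoidHom.coe_mk,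
      OneHom.coe_mk, Prod.smul_fst, Prod.smul_snd, smul_eq_mul, Units.val_mul]
    have h : (sg (q.1.b m) : OO) ^ 2 = 1 := by
      rw [← Units.val_pow_eq_pow_val, sg_sq, Units.val_one]
    linear_combination ((up q.2 : OO) ^ 2 * ((a (m + q.1.s)).1 * (b (m + q.1.s)).2 -
      (a (m + q.1.s)).2 * (b (m + q.1.s)).1)) * h

/-- the data of the integral representation -/
def gdat2 : Dat ℤ Q2 (ZMod 2 → OO × OO) (ZMod 2 → OO) where
  pe := gdat1.pe.comp th
  pz := gdat1.pz.comp th
  om := gdat1.om
  eqv := fun q a b => gdat1.eqv (th q) a b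

/-- constants -/
def cst2 : CC →* Q2 where
  toFun u := ⟨0, 0, 0, Multiplicative.toAdd u⟩
  map_one' := rfl
  map_mul' u v := by ext <;> simp

theorem pe2_apply (q : Q2) (a : ZMod 2 → OO × OO) (m : ZMod 2) :
    gdat2.pe q a m = ((sg ((th q).1.b m) * up (th q).2 : OOˣ) : OO) • a (m + (th q).1.s) := rfl

theorem pz2_apply (q : Q2) (a : ZMod 2 → OO) (m : ZMod 2) :
    gdat2.pz q a m = (up (th q).2 : OO) ^ 2 * a (m + (th q).1.s) := rfl

theorem om2_apply (a b : ZMod 2 → OO × OO) (m : ZMod 2) :
    gdat2.om a b m = (a m).1 * (b m).2 - (a m).2 * (b m).1 := rfl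

theorem rg_of2 {X : Type} (Y : UZ ℤ X)
    (hG : ∀ φ : FreeGroup X →* Con gdat2, LZ gdat2 φ Y = 0) : RG2 Y.1 := by
  intro Ψ χ a
  choose pre hpre using th_surj
  let φ : FreeGroup X →* Con gdat2 :=
    FreeGroup.lift fun x => ⟨fun m => ((a x m).1, (a x m).2), 0,
      pre (Ψ (FreeGroup.of x), χ (FreeGroup.of x))⟩
  have hq : ∀ g, th (φ g).q = (Ψ g, χ g) := by
    intro g
    have : th.comp ((Con.proj gdat2).comp φ) = Ψ.prod χ := by
      apply FreeGroup.ext_hom
      intro x
      simp [φ, Con.proj, hpre]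
    exact DFunLike.congr_fun this g
  have ha : ∀ x, (φ (FreeGroup.of x)).a = fun m => (((a x m).1 : OO), ((a x m).2 : OO)) := by
    intro x; simp [φ]
  have hc : ∀ x, (φ (FreeGroup.of x)).c = 0 := by intro x; simp [φ]
  have h0 := congrFun (hG φ) 0
  rw [LZ, LinearMap.coprod_apply, LZ1] at h0
  simp only [hc, map_zero] at h0
  have h1 : (Finsupp.linearCombination ℤ fun _ : FreeGroup X × X => (0 : ZMod 2 → OO)) Y.2 = 0 := by
    rw [Finsupp.linearCombination_apply]
    simp
  rw [h1, add_zero] at h0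
  have h2 : (LinearMap.proj (R := ℤ) (φ := fun _ : ZMod 2 => OO) 0) (LZ2 gdat2 φ Y.1) = 0 := h0
  rw [LZ2, Finsupp.apply_linearCombination] at h2
  rw [← h2]
  congr 2
  funext p
  simp only [Function.comp_apply, LinearMap.proj_apply, om2_apply, pe2_apply, hq, ha, zero_add,
    Prod.smul_fst, Prod.smul_snd, smul_eq_mul, kr2, Om, map_mul, Units.val_mul, zsmul_eq_mul]
  push_cast
  ring

theorem lin_univ2 {X : Type} (Y : UZ ℤ X)
    (hG : ∀ φ : FreeGroup X →* Con gdat2, LZ gdat2 φ Y = 0)
    {B : Type} [CommGroup B] (ψ : FreeGroup X →* B) (f : B → K) (x : X) :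
    Finsupp.linearCombination ℤ
      (fun p : FreeGroup X × X => if p.2 = x then f ((ψ p.1) ^ 2) else 0) Y.2 = 0 := by
  let L : Multiplicative (X →₀ ℤ) →* B := AddMonoidHom.toMultiplicativeLeft
    (Finsupp.liftAddHom fun i : X =>
      (zmultiplesHom (Additive B)) (Additive.ofMul (ψ (FreeGroup.of i))))
  have hL : ∀ i : X, L (Multiplicative.ofAdd (Finsupp.single i 1)) = ψ (FreeGroup.of i) := by
    intro i
    have : (Finsupp.liftAddHom fun i : X =>
      (zmultiplesHom (Additive B)) (Additive.ofMul (ψ (FreeGroup.of i))))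
        (Finsupp.single i 1) = Additive.ofMul (ψ (FreeGroup.of i)) := by
      simp
    exact congrArg Additive.toMul this
  let U : FreeGroup X →* Multiplicative (X →₀ ℤ) :=
    FreeGroup.lift fun x => Multiplicative.ofAdd (Finsupp.single x 1)
  have hU : L.comp U = ψ := by
    ext x
    simp [U, hL]
  let F : (FreeGroup X × X) → (Multiplicative (X →₀ ℤ) →₀ ℤ) :=
    fun p => if p.2 = x then Finsupp.single ((U p.1) ^ 2) 1 else 0
  have hF : ∀ {M : Type} [AddCommGroup M] (g : Multiplicative (X →₀ ℤ) → M),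
      Finsupp.linearCombination ℤ g (Finsupp.linearCombination ℤ F Y.2) =
        Finsupp.linearCombination ℤ
          (fun p : FreeGroup X × X => if p.2 = x then g ((U p.1) ^ 2) else 0) Y.2 := by
    intro M _ g
    rw [Finsupp.apply_linearCombination]
    congr 2
    funext p
    simp only [F, Function.comp_apply]
    split_ifs <;> simp
  have hA : Finsupp.linearCombination ℤ F Y.2 = 0 := by
    refine ded _ fun χ => ?_
    have h5 : Finsupp.linearCombination ℤ
        (fun p : FreeGroup X × X => if p.2 = x then (up (χ ((U p.1) ^ 2)) : OO) else 0) Y.2 = 0 := by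
      let φ : FreeGroup X →* Con gdat2 :=
        FreeGroup.lift fun y => ⟨0, fun _ => if y = x then 1 else 0, cst2 (χ (U (FreeGroup.of y)))⟩
      have hq : ∀ g, (φ g).q = cst2 (χ (U g)) := by
        intro g
        have : (Con.proj gdat2).comp φ = cst2.comp (χ.comp U) := by
          apply FreeGroup.ext_hom
          intro y
          simp [φ, Con.proj]
        exact DFunLike.congr_fun this g
      have ha : ∀ y, (φ (FreeGroup.of y)).a = 0 := by intro y; simp [φ]
      have hc : ∀ y, (φ (FreeGroup.of y)).c = fun _ => if y = x then 1 else 0 := by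
        intro y; simp [φ]
      have h0 := congrFun (hG φ) 0
      rw [LZ, LinearMap.coprod_apply, LZ2] at h0
      simp only [ha, map_zero] at h0
      have h1 : (Finsupp.linearCombination ℤ fun _ : (FreeGroup X × X) × (FreeGroup X × X) =>
          (0 : ZMod 2 → OO)) Y.1 = 0 := by
        rw [Finsupp.linearCombination_apply]
        simp
      rw [h1, zero_add] at h0
      have h2 : (LinearMap.proj (R := ℤ) (φ := fun _ : ZMod 2 => OO) 0) (LZ1 gdat2 φ Y.2) = 0 := h0
      rw [LZ1, Finsupp.apply_linearCombination] at h2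
      refine Eq.trans ?_ h2
      congr 2
      funext p
      simp only [Function.comp_apply, hq, hc]
      show _ = (up (χ (U p.1)) : OO) ^ 2 * (if p.2 = x then (1 : OO) else 0)
      split_ifs with h
      · rw [mul_one, map_pow, map_pow, Units.val_pow_eq_pow_val]
      · rw [mul_zero]
    exact (hF (M := OO) _).trans h5
  have h0 := hF (fun y => f (L y))
  rw [hA, map_zero] at h0
  refine Eq.trans ?_ h0.symm
  congr 2
  funext p
  simp only [← hU, MonoidHom.comp_apply, map_pow]

theorem lin_of2 (z : Vn n) (Y : UZ ℤ (Gn K n z))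
    (hG : ∀ φ : FreeGroup (Gn K n z) →* Con gdat2, LZ gdat2 φ Y = 0) :
    LZ1 (mdat K n) (can z) Y.2 = 0 := by
  have hcc : ∀ y : Gn K n z, (can z (FreeGroup.of y)).c = (canx z y).c := by
    intro y; simp [can]
  have key : ∀ p : FreeGroup (Gn K n z) × Gn K n z,
      (mdat K n).pz (can z p.1).q (can z (FreeGroup.of p.2)).c =
      ((qn z p.1).2 : K) ^ 2 * (canx z p.2).c := by
    intro p
    rw [hcc]
    rfl
  have h1 : ∀ x : Gn K n z, Finsupp.linearCombination ℤ
      (fun p : FreeGroup (Gn K n z) × Gn K n z =>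
        if p.2 = x then ((qn z p.1).2 : K) ^ 2 * (canx z x).c else 0) Y.2 = 0 := by
    intro x
    have := lin_univ2 Y hG ((MonoidHom.snd (Hn n) Kˣ).comp (qn z))
      (fun v : Kˣ => (v : K) * (canx z x).c) x
    simpa using this
  unfold LZ1
  simp only [key]
  have h2 : ∀ p ∈ Y.2.support, ((qn z p.1).2 : K) ^ 2 * (canx z p.2).c =
      ∑ x ∈ Y.2.support.image Prod.snd,
        if p.2 = x then ((qn z p.1).2 : K) ^ 2 * (canx z x).c else 0 := by
    intro p hp
    rw [Finset.sum_ite_eq, if_pos (Finset.mem_image_of_mem _ hp)]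
  rw [Finsupp.linearCombination_apply, Finsupp.sum]
  rw [Finset.sum_congr rfl fun p hp => by rw [h2 p hp]]
  simp only [Finset.smul_sum]
  rw [Finset.sum_comm]
  refine Finset.sum_eq_zero fun x _ => ?_
  have := h1 x
  rw [Finsupp.linearCombination_apply, Finsupp.sum] at this
  exact this

theorem KLem2 (h2 : (2 : K) = 0)
    (z : Vn n) (hz : z ≠ 0) (Y : UZ ℤ (Gn K n z))
    (hG : ∀ φ : FreeGroup (Gn K n z) →* Con gdat2, LZ gdat2 φ Y = 0) :
    LZ (mdat K n) (can z) Y = 0 := by
  rw [LZ, LinearMap.coprod_apply, lin_of2 z Y hG, add_zero]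
  exact quad2 h2 z hz Y.1 (RP2_of_RG2 _ (rg_of2 Y hG))

/-- identities of the integral representation -/
def IsId2 (u : FreeGroup ℕ →₀ ℤ) : Prop :=
  ∀ (φ : FreeGroup ℕ →* Con gdat2) (v : ℤ × (ZMod 2 → OO × OO) × (ZMod 2 → OO)),
    (u.sum fun k r => r • Con.rep gdat2 (φ k) v) = 0

theorem main1b (h2 : (2 : K) = 0)
    (z : Vn n) (hz : z ≠ 0) (u : FreeGroup ℕ →₀ ℤ) (hu : IsId2 u)
    (j : FreeGroup ℕ →* FreeGroup (Gn K n z)) (y : FreeGroup (Gn K n z)) :
    (u.sum fun k r => r • (can z (y * j k)).c) = 0 := by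
  let Y : UZ ℤ (Gn K n z) := u.sum fun k r => r • (Ups ℤ (Gn K n z) (y * j k)).c
  have hL : ∀ {Q E Z : Type} [Group Q] [AddCommGroup E]
      [AddCommGroup Z] (D : Dat ℤ Q E Z) (f : FreeGroup (Gn K n z) →* Con D),
      LZ D f Y = u.sum fun k r => r • (f (y * j k)).c := by
    intro Q E Z _ _ _ D f
    simp only [Y, Finsupp.sum, map_sum, map_smul, univ_c' D f]
  have h1 := KLem2 h2 z hz Y ?_
  · rw [hL] at h1
    exact h1
  · intro φ
    rw [hL]
    have h4 := hu (φ.comp j) ((1, 0, 0) : ℤ × (ZMod 2 → OO × OO) × (ZMod 2 → OO))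
    have h5 := congrArg (Con.rep gdat2 (φ y)) h4
    rw [map_zero, Finsupp.sum, map_sum] at h5
    have h6 := congrArg (fun v : ℤ × (ZMod 2 → OO × OO) × (ZMod 2 → OO) => v.2.2) h5
    simp only [Prod.snd_sum, Prod.snd_zero] at h6
    rw [Finsupp.sum, ← h6]
    refine Finset.sum_congr rfl fun k _ => ?_
    have h7 : Con.rep gdat2 (φ y) (u k • Con.rep gdat2 ((φ.comp j) k) (1, 0, 0)) =
        u k • Con.rep gdat2 (φ (y * j k)) (1, 0, 0) := by
      rw [map_smul, map_mul, map_mul]
      rfl
    rw [h7]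
    simp

end Pool.Agent.H30R3
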