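import Pool.Agent.H30R3.KL2
import Pool.Agent.FBZ.Mdl

set_option autoImplicit false

open scoped Classical

namespace Pool.Agent.H30R3

open Pool.Agent.FBZ

variable {K : Type} [Field K] {n : ℕ}

theorem IsId2.sum_zero {u : FreeGroup ℕ →₀ ℤ} (hu : IsId2 u) :
    (u.sum fun _ r => r) = 0 := by
  have h4 := hu 1 ((1, 0, 0) : ℤ × (ZMod 2 → OO × OO) × (ZMod 2 → OO))
  have h6 := congrArg (fun v : ℤ × (ZMod 2 → OO × OO) × (ZMod 2 → OO) => v.1) h4
  simp only [Finsupp.sum, Prod.fst_sum, Prod.fst_zero] at h6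
  rw [Finsupp.sum, ← h6]
  refine Finset.sum_congr rfl fun k _ => ?_
  simp

theorem main2b (h2 : (2 : K) = 0)
    (z : Vn n) (hz : z ≠ 0) (u : FreeGroup ℕ →₀ ℤ) (hu : IsId2 u)
    (ψ : FreeGroup ℕ →* Con (mdat K n)) (hψ : ∀ k, dot z (ψ k).q.1.e = 0)
    (x : Con (mdat K n)) :
    (u.sum fun k r => r • (x * ψ k).c) = 0 := by
  obtain ⟨j, hj⟩ := lift_can z ψ hψ
  have e0 : (u.sum fun _ r => (r : K)) = 0 := by
    have := hu.sum_zero
    rw [Finsupp.sum] at this ⊢
    rw [← Int.cast_sum, this, Int.cast_zero]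
  have e1 : (u.sum fun k r => (r : K) * (ψ k).c) = 0 := by
    have := main1b h2 z hz u hu j 1
    simpa [hj] using this
  have e2 : ∀ h : Hn n, (u.sum fun k r => (r : K) * (mdat K n).om (Pi.single h 1) (ψ k).a) = 0 := by
    intro h
    have := main1b h2 z hz u hu j (FreeGroup.of (Gn.A h))
    have hA : can z (FreeGroup.of (Gn.A h : Gn K n z)) = ⟨Pi.single h 1, 0, 1⟩ := by
      simp [can, canx]
    simp only [map_mul, hj, hA, Con.mul_c, map_one, Module.End.one_apply, zero_add, zsmul_eq_mul,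
      mul_add] at this
    rw [Finsupp.sum, Finset.sum_add_distrib] at this
    rw [Finsupp.sum] at e1 ⊢
    rw [e1, zero_add] at this
    exact this
  have e3 : ∀ b : Hn n → K, (u.sum fun k r => (r : K) * (mdat K n).om b (ψ k).a) = 0 := by
    intro b
    simp only [mom_expand b, Finsupp.sum, Finset.mul_sum]
    rw [Finset.sum_comm]
    refine Finset.sum_eq_zero fun h _ => ?_
    have e4 := e2 h
    rw [Finsupp.sum] at e4
    calc ∑ k ∈ u.support, (u k : K) * (b h * (mdat K n).om (Pi.single h 1) (ψ k).a)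
        = b h * ∑ k ∈ u.support, (u k : K) * (mdat K n).om (Pi.single h 1) (ψ k).a := by
          rw [Finset.mul_sum]
          refine Finset.sum_congr rfl fun k _ => ?_
          ring
      _ = 0 := by rw [e4, mul_zero]
  have e5 : ∀ k, (x * ψ k).c = x.c + (x.q.2 : K) ^ 2 * (ψ k).c +
      (x.q.2 : K) ^ 2 * (mdat K n).om ((mdat K n).pe x.q⁻¹ x.a) (ψ k).a := by
    intro k
    rw [Con.mul_c, mpz_apply, ← mpz_apply x.q ((mdat K n).om _ _), ← (mdat K n).eqv]
    have : (mdat K n).pe x.q ((mdat K n).pe x.q⁻¹ x.a) = x.a := by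
      rw [← Module.End.mul_apply, ← map_mul, mul_inv_cancel, map_one, Module.End.one_apply]
    rw [this]
  simp only [e5, zsmul_eq_mul, mul_add, Finsupp.sum, Finset.sum_add_distrib]
  rw [Finsupp.sum] at e0 e1
  have e3' := e3 ((mdat K n).pe x.q⁻¹ x.a)
  rw [Finsupp.sum] at e3'
  have f1 : ∑ k ∈ u.support, (u k : K) * x.c = 0 := by
    rw [← Finset.sum_mul, e0, zero_mul]
  have f2 : ∑ k ∈ u.support, (u k : K) * ((x.q.2 : K) ^ 2 * (ψ k).c) = 0 := by
    calc _ = (x.q.2 : K) ^ 2 * ∑ k ∈ u.support, (u k : K) * (ψ k).c := by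
          rw [Finset.mul_sum]
          refine Finset.sum_congr rfl fun k _ => ?_
          ring
      _ = 0 := by rw [e1, mul_zero]
  have f3 : ∑ k ∈ u.support, (u k : K) * ((x.q.2 : K) ^ 2 *
      (mdat K n).om ((mdat K n).pe x.q⁻¹ x.a) (ψ k).a) = 0 := by
    calc _ = (x.q.2 : K) ^ 2 * ∑ k ∈ u.support, (u k : K) *
          (mdat K n).om ((mdat K n).pe x.q⁻¹ x.a) (ψ k).a := by
          rw [Finset.mul_sum]
          refine Finset.sum_congr rfl fun k _ => ?_
          ring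
      _ = 0 := by rw [e3', mul_zero]
  rw [f1, f2, f3]
  simp


theorem prodId2 {G G' P V V' : Type} [Group G] [Group G'] [Group P] [AddCommGroup V]
    [AddCommGroup V'] (ρ : G →* Module.End ℤ V) (ρ' : G' →* Module.End ℤ V')
    (ψ : FreeGroup ℕ →* G' × P)
    (h : ∀ u, IdR ρ u → ∀ v, (u.sum fun k r => r • ρ' (ψ k).1 v) = 0) :
    ∀ u, IdR (fdat (P := P) ρ) u → ∀ f : P → V', (u.sum fun k r => r • fdat ρ' (ψ k) f) = 0 := by
  intro u hu f
  funext y
  let up : P → FreeGroup ℕ →₀ ℤ := fun p => u.filter fun k => (ψ k).2 = p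
  have hup : ∀ p, IdR ρ (up p) := by
    intro p φ v
    have h1 := hu (φ.prod ((MonoidHom.snd G' P).comp ψ)) (Pi.single 1 v)
    have h2 := congrFun h1 p
    rw [Finsupp.sum, Finset.sum_apply, Pi.zero_apply] at h2
    simp only [Pi.smul_apply, fdat_apply, MonoidHom.prod_apply, MonoidHom.comp_apply,
      MonoidHom.coe_snd] at h2
    rw [Finsupp.sum, Finsupp.support_filter, Finset.sum_filter]
    refine Eq.trans ?_ h2
    refine Finset.sum_congr rfl fun k _ => ?_
    by_cases hk : (ψ k).2 = p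
    · rw [if_pos hk, Finsupp.filter_apply, if_pos hk, hk, inv_mul_cancel, Pi.single_eq_same]
    · have : ((ψ k).2)⁻¹ * p ≠ 1 := by
        intro h3
        exact hk (inv_mul_eq_one.mp h3)
      rw [if_neg hk, Pi.single_eq_of_ne this, map_zero, smul_zero]
  rw [Finsupp.sum, Finset.sum_apply, Pi.zero_apply]
  simp only [Pi.smul_apply, fdat_apply]
  have h3 : ∀ k ∈ u.support, u k • ρ' (ψ k).1 (f ((ψ k).2⁻¹ * y)) =
      ∑ p ∈ u.support.image (fun k => (ψ k).2),
        if (ψ k).2 = p then u k • ρ' (ψ k).1 (f (p⁻¹ * y)) else 0 := by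
    intro k hk
    rw [Finset.sum_ite_eq, if_pos (Finset.mem_image_of_mem (fun k => (ψ k).2) hk)]
  rw [Finset.sum_congr rfl h3, Finset.sum_comm]
  refine Finset.sum_eq_zero fun p _ => ?_
  have h4 := h (up p) (hup p) (f (p⁻¹ * y))
  rw [Finsupp.sum, Finsupp.support_filter, Finset.sum_filter] at h4
  refine Eq.trans ?_ h4
  refine Finset.sum_congr rfl fun k _ => ?_
  by_cases hk : (ψ k).2 = p
  · rw [if_pos hk, if_pos hk, Finsupp.filter_apply, if_pos hk]
  · rw [if_neg hk, if_neg hk]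

end Pool.Agent.H30R3
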