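import Pool.Agent.H354.NORE.Stmts

/-! Task Dual of the project H354-NORE (helper30). -/

set_option autoImplicit false

namespace H354P

open Matrix MulOpposite

namespace Dual

variable {R : Type} [Ring R] {m n l : ℕ}

/-- the transposed matrix over the opposite ring -/
def T {R : Type} {m n : ℕ} (A : Matrix (Fin m) (Fin n) R) : Matrix (Fin n) (Fin m) Rᵐᵒᵖ :=
  fun i j => op (A j i)

theorem T_mul (A : Matrix (Fin m) (Fin n) R) (B : Matrix (Fin n) (Fin l) R) :
    T B * T A = T (A * B) := by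
  ext i j
  rw [Matrix.mul_apply]
  show ∑ x, op (B x i) * op (A j x) = op ((A * B) j i)
  rw [Matrix.mul_apply, Finset.op_sum]
  rfl

theorem T_zero : T (0 : Matrix (Fin m) (Fin n) R) = 0 := rfl

theorem T_mulVec (A : Matrix (Fin m) (Fin n) R) (x : Fin m → R) :
    T A *ᵥ (fun i => op (x i)) = fun j => op ((x ᵥ* A) j) := by
  funext j
  show ∑ i, op (A i j) * op (x i) = op (∑ i, x i * A i j)
  rw [Finset.op_sum]
  rfl

theorem T_vecMul (A : Matrix (Fin m) (Fin n) R) (x : Fin n → R) :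
    (fun i => op (x i)) ᵥ* T A = fun j => op ((A *ᵥ x) j) := by
  funext j
  show ∑ i, op (x i) * op (A j i) = op (∑ i, A j i * x i)
  rw [Finset.op_sum]
  rfl

/-- the opposite homomorphism -/
def ophom {k : Type} [Field k] {R S : Type} [Ring R] [Algebra k R] [Ring S] [Algebra k S]
    (φ : Rᵐᵒᵖ →ₐ[k] S) : R →ₐ[k] Sᵐᵒᵖ where
  toFun r := op (φ (op r))
  map_one' := by rw [op_one, map_one, op_one]
  map_mul' a b := by rw [op_mul, map_mul, op_mul]
  map_zero' := by rw [op_zero, map_zero, op_zero]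
  map_add' a b := by rw [op_add, map_add, op_add]
  commutes' c := by
    have h := φ.commutes c
    rw [MulOpposite.algebraMap_apply] at h
    rw [h, MulOpposite.algebraMap_apply]

theorem map_ophom {k : Type} [Field k] {R S : Type} [Ring R] [Algebra k R] [Ring S] [Algebra k S]
    (φ : Rᵐᵒᵖ →ₐ[k] S) (A : Matrix (Fin m) (Fin n) R) :
    A.map (ophom φ) = T ((T A).map φ) := rfl

theorem fun_op_inj {ι : Type} {x y : ι → R} (h : (fun i => op (x i)) = fun i => op (y i)) :
    x = y := by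
  funext i
  exact op_injective (congrFun h i)

end Dual

open Dual in
theorem taskDual (k : Type) [Field k] : TaskDual k := by
  intro h R _ _ _ m n A
  obtain ⟨S, iS, iA, iD, φ, e, hφ, h1, h2, h3⟩ := h Rᵐᵒᵖ n m (T A)
  refine ⟨Sᵐᵒᵖ, inferInstance, inferInstance, inferInstance, ophom φ, T e, ?_, ?_, ?_, ?_⟩
  · intro a b hab
    have h4 : op (φ (op a)) = op (φ (op b)) := hab
    exact op_injective (hφ (op_injective h4))
  · rw [map_ophom, T_mul, h1, T_zero]
  · intro y hy
    obtain ⟨x, rfl⟩ : ∃ x : Fin n → S, y = fun i => op (x i) := ⟨fun i => unop (y i), rfl⟩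
    rw [map_ophom, T_mulVec] at hy
    have h4 : x ᵥ* (T A).map φ = 0 := fun_op_inj hy
    rw [T_mulVec, h2 x h4]
  · intro s t B g hBg hker ρ hρ
    obtain ⟨x, rfl⟩ : ∃ x : Fin s → S, ρ = fun i => op (x i) := ⟨fun i => unop (ρ i), rfl⟩
    rw [map_ophom, T_vecMul] at hρ
    have h4 : (T B).map φ *ᵥ x = 0 := fun_op_inj hρ
    have h5 : (T g).map φ *ᵥ x = x := by
      refine h3 t s (T B) (T g) ?_ ?_ x h4
      · rw [T_mul, hBg, T_zero]
      · intro y hy
        obtain ⟨z, rfl⟩ : ∃ z : Fin s → R, y = fun i => op (z i) := ⟨fun i => unop (y i), rfl⟩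
        rw [T_mulVec] at hy
        have h6 : z ᵥ* B = 0 := fun_op_inj hy
        rw [T_mulVec, hker z h6]
    rw [map_ophom, T_vecMul, h5]

end H354P
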