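import Mathlib
import Pool.Agent.Helper844.DPRM

/-! Recursively enumerable sets as solvable systems of elementary equations over the natural
numbers. -/

set_option autoImplicit false

namespace Pool.Agent.H30R3.NProg

open Pool.Agent.Helper844.Dio
open Nat.Partrec (Code)

/-- an elementary equation over the natural numbers with variables in `V` -/
inductive NEq (V : Type) : Type
  | add (i j k : V) : NEq V
  | mul (i j k : V) : NEq V
  | cst (i : V) (n : ℕ) : NEq V
  | eq (i j : V) : NEq V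

def NEq.Holds {V : Type} (x : V → ℕ) : NEq V → Prop
  | .add i j k => x i + x j = x k
  | .mul i j k => x i * x j = x k
  | .cst i n => x i = n
  | .eq i j => x i = x j

def NEq.map {V W : Type} (f : V → W) : NEq V → NEq W
  | .add i j k => .add (f i) (f j) (f k)
  | .mul i j k => .mul (f i) (f j) (f k)
  | .cst i n => .cst (f i) n
  | .eq i j => .eq (f i) (f j)

theorem NEq.holds_map {V W : Type} (f : V → W) (q : NEq V) (x : W → ℕ) :
    (q.map f).Holds x ↔ q.Holds (x ∘ f) := by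
  cases q <;> exact Iff.rfl

/-- straight line program for a polynomial -/
def Prog {γ : Type} (p : Poly γ) : Prop :=
  ∃ (β : Type) (_ : Fintype β) (L : List (NEq (γ ⊕ β))) (o o' : γ ⊕ β),
    (∀ x : γ ⊕ β → ℕ, (∀ q ∈ L, q.Holds x) → (x o : ℤ) - x o' = p (x ∘ Sum.inl)) ∧
    (∀ v : γ → ℕ, ∃ y : β → ℕ, ∀ q ∈ L, q.Holds (Sum.elim v y))

def in1 {γ β₁ β₂ δ : Type} : γ ⊕ β₁ → γ ⊕ (β₁ ⊕ β₂ ⊕ δ) := Sum.map id Sum.inl
def in2 {γ β₁ β₂ δ : Type} : γ ⊕ β₂ → γ ⊕ (β₁ ⊕ β₂ ⊕ δ) := Sum.map id (Sum.inr ∘ Sum.inl)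

theorem elim_in1 {γ β₁ β₂ δ : Type} (v : γ → ℕ) (y₁ : β₁ → ℕ) (y₂ : β₂ → ℕ) (z : δ → ℕ) :
    (Sum.elim v (Sum.elim y₁ (Sum.elim y₂ z))) ∘ (in1 : γ ⊕ β₁ → γ ⊕ (β₁ ⊕ β₂ ⊕ δ)) =
      Sum.elim v y₁ := by
  funext g
  rcases g with g | g <;> rfl

theorem elim_in2 {γ β₁ β₂ δ : Type} (v : γ → ℕ) (y₁ : β₁ → ℕ) (y₂ : β₂ → ℕ) (z : δ → ℕ) :
    (Sum.elim v (Sum.elim y₁ (Sum.elim y₂ z))) ∘ (in2 : γ ⊕ β₂ → γ ⊕ (β₁ ⊕ β₂ ⊕ δ)) =
      Sum.elim v y₂ := by
  funext g
  rcases g with g | g <;> rfl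

theorem prog_all {γ : Type} (p : Poly γ) : Prog p := by
  refine Poly.induction (C := Prog) ?_ ?_ ?_ ?_ p
  · intro i
    refine ⟨Unit, inferInstance, [.cst (Sum.inr ()) 0], Sum.inl i, Sum.inr (), ?_, ?_⟩
    · intro x hq
      have h := hq _ (List.mem_singleton.2 rfl)
      simp only [NEq.Holds] at h
      rw [h, Poly.proj_apply]
      simp
    · intro v
      refine ⟨fun _ => 0, ?_⟩
      intro q hq
      rw [List.mem_singleton] at hq
      subst hq
      rfl
  · intro n
    refine ⟨Bool, inferInstance, [.cst (Sum.inr true) n.toNat, .cst (Sum.inr false) (-n).toNat],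
      Sum.inr true, Sum.inr false, ?_, ?_⟩
    · intro x hq
      have h1 := hq (.cst (Sum.inr true) n.toNat) (by simp)
      have h2 := hq (.cst (Sum.inr false) (-n).toNat) (by simp)
      simp only [NEq.Holds] at h1 h2
      rw [h1, h2, Poly.const_apply]
      omega
    · intro v
      refine ⟨fun b => if b then n.toNat else (-n).toNat, ?_⟩
      intro q hq
      simp only [List.mem_cons, List.not_mem_nil, or_false] at hq
      rcases hq with rfl | rfl <;> simp [NEq.Holds]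
  · rintro p1 p2 ⟨β₁, _, L₁, o₁, o₁', s₁, c₁⟩ ⟨β₂, _, L₂, o₂, o₂', s₂, c₂⟩
    refine ⟨β₁ ⊕ β₂ ⊕ Bool, inferInstance,
      .add (in1 o₁) (in2 o₂') (Sum.inr (Sum.inr (Sum.inr true))) ::
      .add (in1 o₁') (in2 o₂) (Sum.inr (Sum.inr (Sum.inr false))) ::
        (L₁.map (NEq.map in1) ++ L₂.map (NEq.map in2)), Sum.inr (Sum.inr (Sum.inr true)),
      Sum.inr (Sum.inr (Sum.inr false)), ?_, ?_⟩
    · intro x hq
      have h0 := hq _ (List.mem_cons_self)
      have h0' := hq _ (List.mem_cons_of_mem _ List.mem_cons_self)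
      have h1 := s₁ (x ∘ in1) (fun q hq' => by
        rw [← NEq.holds_map]
        exact hq _ (List.mem_cons_of_mem _ (List.mem_cons_of_mem _
          (List.mem_append_left _ (List.mem_map_of_mem hq')))))
      have h2 := s₂ (x ∘ in2) (fun q hq' => by
        rw [← NEq.holds_map]
        exact hq _ (List.mem_cons_of_mem _ (List.mem_cons_of_mem _
          (List.mem_append_right _ (List.mem_map_of_mem hq')))))
      have e1 : (x ∘ in1) ∘ Sum.inl = x ∘ (Sum.inl : γ → γ ⊕ (β₁ ⊕ β₂ ⊕ Bool)) := rfl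
      have e2 : (x ∘ in2) ∘ Sum.inl = x ∘ (Sum.inl : γ → γ ⊕ (β₁ ⊕ β₂ ⊕ Bool)) := rfl
      rw [e1] at h1
      rw [e2] at h2
      simp only [NEq.Holds] at h0 h0'
      rw [Poly.sub_apply, ← h1, ← h2, ← h0, ← h0']
      simp only [Function.comp]
      push_cast
      ring
    · intro v
      obtain ⟨y₁, hy₁⟩ := c₁ v
      obtain ⟨y₂, hy₂⟩ := c₂ v
      refine ⟨Sum.elim y₁ (Sum.elim y₂ (fun t => if t then
        Sum.elim v y₁ o₁ + Sum.elim v y₂ o₂' else Sum.elim v y₁ o₁' + Sum.elim v y₂ o₂)), ?_⟩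
      intro q hq
      rw [List.mem_cons, List.mem_cons, List.mem_append, List.mem_map, List.mem_map] at hq
      rcases hq with rfl | rfl | ⟨q, hq, rfl⟩ | ⟨q, hq, rfl⟩
      · have a1 := congrFun (elim_in1 v y₁ y₂ (fun t : Bool => if t then
          Sum.elim v y₁ o₁ + Sum.elim v y₂ o₂' else Sum.elim v y₁ o₁' + Sum.elim v y₂ o₂)) o₁
        have a2 := congrFun (elim_in2 v y₁ y₂ (fun t : Bool => if t then
          Sum.elim v y₁ o₁ + Sum.elim v y₂ o₂' else Sum.elim v y₁ o₁' + Sum.elim v y₂ o₂)) o₂'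
        simp only [Function.comp] at a1 a2
        simp only [NEq.Holds]
        rw [a1, a2]
        rfl
      · have a1 := congrFun (elim_in1 v y₁ y₂ (fun t : Bool => if t then
          Sum.elim v y₁ o₁ + Sum.elim v y₂ o₂' else Sum.elim v y₁ o₁' + Sum.elim v y₂ o₂)) o₁'
        have a2 := congrFun (elim_in2 v y₁ y₂ (fun t : Bool => if t then
          Sum.elim v y₁ o₁ + Sum.elim v y₂ o₂' else Sum.elim v y₁ o₁' + Sum.elim v y₂ o₂)) o₂
        simp only [Function.comp] at a1 a2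
        simp only [NEq.Holds]
        rw [a1, a2]
        rfl
      · rw [NEq.holds_map, elim_in1]
        exact hy₁ q hq
      · rw [NEq.holds_map, elim_in2]
        exact hy₂ q hq
  · rintro p1 p2 ⟨β₁, _, L₁, o₁, o₁', s₁, c₁⟩ ⟨β₂, _, L₂, o₂, o₂', s₂, c₂⟩
    let N : Fin 6 → γ ⊕ (β₁ ⊕ β₂ ⊕ Fin 6) := fun t => Sum.inr (Sum.inr (Sum.inr t))
    refine ⟨β₁ ⊕ β₂ ⊕ Fin 6, inferInstance,
      [.mul (in1 o₁) (in2 o₂) (N 0), .mul (in1 o₁') (in2 o₂') (N 1),
       .mul (in1 o₁) (in2 o₂') (N 2), .mul (in1 o₁') (in2 o₂) (N 3),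
       .add (N 0) (N 1) (N 4), .add (N 2) (N 3) (N 5)] ++
        (L₁.map (NEq.map in1) ++ L₂.map (NEq.map in2)), N 4, N 5, ?_, ?_⟩
    · intro x hq
      have g0 := hq (.mul (in1 o₁) (in2 o₂) (N 0)) (by simp)
      have g1 := hq (.mul (in1 o₁') (in2 o₂') (N 1)) (by simp)
      have g2 := hq (.mul (in1 o₁) (in2 o₂') (N 2)) (by simp)
      have g3 := hq (.mul (in1 o₁') (in2 o₂) (N 3)) (by simp)
      have g4 := hq (.add (N 0) (N 1) (N 4)) (by simp)
      have g5 := hq (.add (N 2) (N 3) (N 5)) (by simp)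
      have h1 := s₁ (x ∘ in1) (fun q hq' => by
        rw [← NEq.holds_map]
        exact hq _ (List.mem_append_right _
          (List.mem_append_left _ (List.mem_map_of_mem hq'))))
      have h2 := s₂ (x ∘ in2) (fun q hq' => by
        rw [← NEq.holds_map]
        exact hq _ (List.mem_append_right _
          (List.mem_append_right _ (List.mem_map_of_mem hq'))))
      have e1 : (x ∘ in1) ∘ Sum.inl = x ∘ (Sum.inl : γ → γ ⊕ (β₁ ⊕ β₂ ⊕ Fin 6)) := rfl
      have e2 : (x ∘ in2) ∘ Sum.inl = x ∘ (Sum.inl : γ → γ ⊕ (β₁ ⊕ β₂ ⊕ Fin 6)) := rfl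
      rw [e1] at h1
      rw [e2] at h2
      simp only [NEq.Holds] at g0 g1 g2 g3 g4 g5
      rw [Poly.mul_apply, ← h1, ← h2, ← g4, ← g5, ← g0, ← g1, ← g2, ← g3]
      simp only [Function.comp]
      push_cast
      ring
    · intro v
      obtain ⟨y₁, hy₁⟩ := c₁ v
      obtain ⟨y₂, hy₂⟩ := c₂ v
      let a := Sum.elim v y₁ o₁
      let a' := Sum.elim v y₁ o₁'
      let b := Sum.elim v y₂ o₂
      let b' := Sum.elim v y₂ o₂'
      refine ⟨Sum.elim y₁ (Sum.elim y₂ ![a * b, a' * b', a * b', a' * b, a * b + a' * b',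
        a * b' + a' * b]), ?_⟩
      intro q hq
      have a1 := fun z : Fin 6 → ℕ => congrFun (elim_in1 v y₁ y₂ z) o₁
      have a2 := fun z : Fin 6 → ℕ => congrFun (elim_in1 v y₁ y₂ z) o₁'
      have a3 := fun z : Fin 6 → ℕ => congrFun (elim_in2 v y₁ y₂ z) o₂
      have a4 := fun z : Fin 6 → ℕ => congrFun (elim_in2 v y₁ y₂ z) o₂'
      simp only [Function.comp] at a1 a2 a3 a4
      rw [List.mem_append, List.mem_append, List.mem_map, List.mem_map] at hq
      rcases hq with hq | ⟨q, hq, rfl⟩ | ⟨q, hq, rfl⟩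
      · simp only [List.mem_cons, List.not_mem_nil, or_false] at hq
        rcases hq with rfl | rfl | rfl | rfl | rfl | rfl
        · simp only [NEq.Holds]
          rw [a1, a3]; rfl
        · simp only [NEq.Holds]
          rw [a2, a4]; rfl
        · simp only [NEq.Holds]
          rw [a1, a4]; rfl
        · simp only [NEq.Holds]
          rw [a2, a3]; rfl
        · rfl
        · rfl
      · rw [NEq.holds_map, elim_in1]
        exact hy₁ q hq
      · rw [NEq.holds_map, elim_in2]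
        exact hy₂ q hq

theorem finite_dummies' {S : Set (Unit → ℕ)} (h : Dioph S) :
    ∃ (δ : Type) (_ : Fintype δ) (p : Poly (Unit ⊕ δ)), ∀ v, v ∈ S ↔
      ∃ t, p (Sum.elim v t) = 0 := finite_dummies h

/-- every recursively enumerable set is given by a finite system of elementary equations over the
natural numbers -/
theorem exists_system (S : ℕ → Prop) (hS : REPred S) :
    ∃ (V : Type) (_ : Fintype V) (f : V) (L : List (NEq V)), ∀ n : ℕ,
      (∃ x : V → ℕ, x f = n ∧ ∀ q ∈ L, q.Holds x) ↔ S n := by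
  obtain ⟨δ, _, p, hp⟩ := finite_dummies' (dprm hS)
  obtain ⟨β, _, L, o, o', sound, compl⟩ := prog_all p
  refine ⟨(Unit ⊕ δ) ⊕ β, inferInstance, Sum.inl (Sum.inl ()), .eq o o' :: L, ?_⟩
  intro n
  have key : S n ↔ ∃ t, p (Sum.elim (fun _ => n) t) = 0 := hp (fun _ => n)
  rw [key]
  constructor
  · rintro ⟨x, hx, hL⟩
    have h1 := hL _ List.mem_cons_self
    have h2 := sound x fun q hq => hL q (List.mem_cons_of_mem _ hq)
    simp only [NEq.Holds] at h1
    rw [h1, sub_self] at h2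
    refine ⟨fun d => x (Sum.inl (Sum.inr d)), ?_⟩
    rw [h2]
    congr 1
    funext g
    rcases g with g | g
    · exact hx.symm
    · rfl
  · rintro ⟨t, ht⟩
    obtain ⟨y, hy⟩ := compl (Sum.elim (fun _ => n) t)
    refine ⟨Sum.elim (Sum.elim (fun _ => n) t) y, rfl, ?_⟩
    intro q hq
    rcases List.mem_cons.mp hq with rfl | hq
    · have h2 := sound _ hy
      have e : (Sum.elim (Sum.elim (fun _ => n) t) y) ∘ Sum.inl = Sum.elim (fun _ : Unit => n) t :=
        rfl
      rw [e, ht] at h2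
      simp only [NEq.Holds]
      omega
    · exact hy q hq

theorem comp_pred {α β : Type*} [Primcodable α] [Primcodable β] {p : β → Prop} {g : α → β}
    (hp : ComputablePred p) (hg : Computable g) : ComputablePred (fun a => p (g a)) := by
  obtain ⟨f, hf, rfl⟩ := ComputablePred.computable_iff.1 hp
  exact ComputablePred.computable_iff.2 ⟨fun a => f (g a), hf.comp hg, rfl⟩

/-- a recursively enumerable set that is not computable -/
theorem exists_halting : ∃ S : ℕ → Prop, REPred S ∧ ¬ ComputablePred S := by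
  refine ⟨fun n => (Code.eval (Denumerable.ofNat Code n) 0).Dom, ?_, ?_⟩
  · have h1 : Partrec fun n : ℕ => Code.eval (Denumerable.ofNat Code n) 0 :=
      Code.eval_part.comp (Computable.ofNat Code) (Computable.const 0)
    exact h1.dom_re
  · intro h
    have h2 := comp_pred h (Computable.encode (α := Code))
    refine ComputablePred.halting_problem 0 (h2.of_eq fun c => ?_)
    rw [Denumerable.ofNat_encode]

end Pool.Agent.H30R3.NProg
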