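import Pool.Agent.H329R3.PM.Stmts

/-! Task One of the project H329-PME: the exact value of `∫ kk r y dy` and its bounds. -/

open MeasureTheory Set Filter Topology

namespace Pool.Agent.H30R3.PMOne

open Pool.Agent.H329R3.PM

/-- antiderivative of `y * kap r y` -/
noncomputable def GG (r y : ℝ) : ℝ :=
  2 / 5 * ((r + y) ^ 2 * √(r + y)) - r * ((r + y) * √(r + y)) + r ^ 2 * √(r + y)
    + r * ((r - y) * √|r - y|) - 2 / 5 * ((r - y) ^ 2 * √|r - y|) - r ^ 2 * √|r - y|

lemma hasDerivAt_rho {z : ℝ} (hz : z ≠ 0) : HasDerivAt (fun z : ℝ => √|z|) (sg z / 2) z := by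
  rcases lt_or_gt_of_ne hz with h | h
  · have h1 : HasDerivAt (fun z : ℝ => √(-z)) (sg z / 2) z := by
      have h2 : HasDerivAt (fun z : ℝ => -z) (-1) z := (hasDerivAt_id z).neg
      have h3 := h2.sqrt (by linarith : -z ≠ 0)
      convert h3 using 1
      have h4 : 0 < √(-z) := Real.sqrt_pos.mpr (by linarith)
      simp only [sg, abs_of_neg h]
      field_simp
    refine h1.congr_of_eventuallyEq ?_
    filter_upwards [gt_mem_nhds h] with w hw
    rw [abs_of_neg hw]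
  · have h1 : HasDerivAt (fun z : ℝ => √z) (sg z / 2) z := by
      have h3 := Real.hasDerivAt_sqrt h.ne'
      have h4 : 0 < √z := Real.sqrt_pos.mpr h
      have h5 : sg z / 2 = 1 / (2 * √z) := by
        simp only [sg, abs_of_pos h]
        field_simp
      rw [h5]
      exact h3
    refine h1.congr_of_eventuallyEq ?_
    filter_upwards [lt_mem_nhds h] with w hw
    rw [abs_of_pos hw]

lemma sg_mul {z : ℝ} (hz : z ≠ 0) : z * sg z = √|z| := by
  have h1 : 0 < |z| := abs_pos.mpr hz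
  have h2 : 0 < √|z| := Real.sqrt_pos.mpr h1
  have h3 : √|z| * √|z| = |z| := Real.mul_self_sqrt h1.le
  have h4 : z * z = |z| * |z| := (abs_mul_abs_self z).symm
  unfold sg
  rw [mul_div_assoc', div_eq_iff (by positivity), h4, mul_comm (√|z|) _, mul_assoc, h3]

lemma hasDerivAt_GG {r y : ℝ} (hr : 0 < r) (hy : 0 < y) (hne : y ≠ r) :
    HasDerivAt (GG r) (y * kap r y) y := by
  have hs : 0 < r + y := by linarith
  have hp : 0 < √(r + y) := Real.sqrt_pos.mpr hs
  have hpp : √(r + y) * √(r + y) = r + y := Real.mul_self_sqrt hs.le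
  have hz : r - y ≠ 0 := sub_ne_zero.mpr (Ne.symm hne)
  have d1 : HasDerivAt (fun y : ℝ => r + y) 1 y := by simpa using (hasDerivAt_id y).const_add r
  have d2 : HasDerivAt (fun y : ℝ => √(r + y)) (1 / (2 * √(r + y))) y := d1.sqrt hs.ne'
  have d3 : HasDerivAt (fun y : ℝ => r - y) (-1) y := by simpa using (hasDerivAt_id y).const_sub r
  have d4 : HasDerivAt (fun y : ℝ => √|r - y|) (-(sg (r - y) / 2)) y := by
    have := (hasDerivAt_rho hz).comp y d3
    simpa [Function.comp_def] using this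
  have e1 := sg_mul hz
  have D := ((((((d1.pow 2).mul d2).const_mul (2 / 5)).sub ((d1.mul d2).const_mul r)).add
    (d2.const_mul (r ^ 2))).add ((d3.mul d4).const_mul r)).sub
    (((d3.pow 2).mul d4).const_mul (2 / 5))
  have D2 := D.sub (d4.const_mul (r ^ 2))
  have D3 : HasDerivAt (GG r) _ y := D2
  convert D3 using 1
  simp only [Pi.pow_apply]
  unfold kap
  obtain ⟨p, hp'⟩ : ∃ p, p = √(r + y) := ⟨_, rfl⟩
  obtain ⟨q, hq'⟩ : ∃ q, q = √|r - y| := ⟨_, rfl⟩
  obtain ⟨s, hs'⟩ : ∃ s, s = sg (r - y) := ⟨_, rfl⟩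
  rw [← hp', ← hq', ← hs']
  rw [← hp'] at hpp hp
  rw [← hq', ← hs'] at e1
  have e2 : y = p * p - r := by linarith
  have e3 : q = (r - y) * s := e1.symm
  have hp0 : p ≠ 0 := hp.ne'
  rw [e3, e2]
  field_simp
  ring

lemma continuous_GG (r : ℝ) : Continuous (GG r) := by
  unfold GG
  fun_prop

lemma GG_zero {r : ℝ} (hr : 0 < r) : GG r 0 = 0 := by
  simp only [GG, add_zero, sub_zero, abs_of_pos hr]
  ring

lemma integral_kk (hK : KInt) {r : ℝ} (hr : r ∈ Ioc (0 : ℝ) 1) :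
    ∫ y in Ioc (0 : ℝ) 1, kk r y = GG r 1 / r ^ 3 := by
  have h1 : IntervalIntegrable (kk r) volume 0 1 := by
    rw [intervalIntegrable_iff_integrableOn_Ioc_of_le zero_le_one]
    exact hK.2.2 r hr.1
  have h2 : ∫ y in (0 : ℝ)..1, kk r y = GG r 1 / r ^ 3 - GG r 0 / r ^ 3 := by
    apply MeasureTheory.integral_eq_of_hasDerivAt_off_countable_of_le
      (fun y => GG r y / r ^ 3) (kk r) zero_le_one (Set.countable_singleton r)
    · exact ((continuous_GG r).div_const _).continuousOn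
    · intro y hy
      exact (hasDerivAt_GG hr.1 hy.1.1 hy.2).div_const _
    · exact h1
  rw [← intervalIntegral.integral_of_le zero_le_one, h2, GG_zero hr.1]
  ring

lemma GG_one {r a b : ℝ} (ha : a = √(1 + r)) (hb : b = √(1 - r)) (hr : r ∈ Ioc (0 : ℝ) 1) :
    GG r 1 = (a - b) ^ 3 * (1 + (a + b) ^ 2) / 10 ∧ r ^ 3 = (a - b) ^ 3 * (a + b) ^ 3 / 8 ∧
      0 < a - b ∧ a + b ≤ 2 ∧ 2 ≤ (a + b) ^ 2 ∧ 0 < a + b := by
  have h1 : a * a = 1 + r := by rw [ha]; exact Real.mul_self_sqrt (by linarith [hr.1])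
  have h2 : b * b = 1 - r := by rw [hb]; exact Real.mul_self_sqrt (by linarith [hr.2])
  have ha0 : 0 < a := by rw [ha]; exact Real.sqrt_pos.mpr (by linarith [hr.1])
  have hb0 : 0 ≤ b := by rw [hb]; exact Real.sqrt_nonneg _
  have hrr := hr.1
  have e1 : r = (a * a - b * b) / 2 := by linarith
  have e2 : a * a + b * b = 2 := by linarith
  have hab : b < a := by nlinarith
  refine ⟨?_, ?_, by linarith, by nlinarith [sq_nonneg (a - b)], by nlinarith, by linarith⟩
  · have e3 : GG r 1 = 2 / 5 * (a ^ 5 - b ^ 5) - r * (a ^ 3 + b ^ 3) + r ^ 2 * (a - b) := by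
      have e4 : |r - 1| = 1 - r := by rw [abs_of_nonpos (by linarith [hr.2])]; ring
      simp only [GG, e4, add_comm r 1, ← ha, ← hb]
      have e5 : r - 1 = -(b * b) := by linarith
      rw [e5, ← h1]
      ring
    have e6 : b * b = 2 - a * a := by linarith
    rw [e3, e1]
    have : b ^ 2 = 2 - a ^ 2 := by nlinarith
    have b3 : b ^ 3 = (2 - a ^ 2) * b := by rw [pow_succ, this]
    have b4 : b ^ 4 = (2 - a ^ 2) ^ 2 := by rw [← this]; ring
    have b5 : b ^ 5 = (2 - a ^ 2) ^ 2 * b := by rw [pow_succ, b4]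
    ring_nf
    have b6 : b ^ 6 = (2 - a ^ 2) ^ 3 := by rw [← this]; ring
    simp only [this, b3, b4, b5]
    ring
  · rw [e1]; ring

theorem taskOne : TaskOne := by
  intro hK r hr
  rw [integral_kk hK hr]
  obtain ⟨h1, h2, h3, h4, h5, h6⟩ := GG_one rfl rfl hr
  have hr3 : 0 < r ^ 3 := pow_pos hr.1 3
  obtain ⟨d, hd⟩ : ∃ d, d = √(1 + r) - √(1 - r) := ⟨_, rfl⟩
  obtain ⟨S, hS⟩ : ∃ S, S = √(1 + r) + √(1 - r) := ⟨_, rfl⟩
  rw [← hd] at h1 h2 h3
  rw [← hS] at h1 h2 h4 h5 h6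
  have hd3 : 0 < d ^ 3 := pow_pos h3 3
  constructor
  · rw [le_div_iff₀ hr3, h1, h2]
    have : S ^ 3 ≤ 2 * S ^ 2 := by nlinarith [sq_nonneg S]
    nlinarith
  · rw [div_le_iff₀ hr3, h1, h2]
    have h7 : 7 / 5 ≤ S := by nlinarith
    have : 7 / 5 * S ^ 2 ≤ S ^ 3 := by nlinarith [sq_nonneg S]
    nlinarith

end Pool.Agent.H30R3.PMOne
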