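import Pool.Agent.FBZ.Rl

set_option autoImplicit false

open scoped Classical

namespace Pool.Agent.H30R3

open Pool.Agent.FBZ

variable {K : Type} [Field K] {X : Type}

/-- a group with two elements -/
abbrev C2 : Type := Multiplicative (ZMod 2)

/-- the nontrivial character with values `1`, `-1` -/
def sg : C2 →* OOˣ where
  toFun x := if Multiplicative.toAdd x = 0 then 1 else -1
  map_one' := by simp
  map_mul' x y := by
    obtain ⟨a, rfl⟩ := Multiplicative.ofAdd.surjective x
    obtain ⟨b, rfl⟩ := Multiplicative.ofAdd.surjective y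
    rw [← ofAdd_add]
    simp only [toAdd_ofAdd]
    have h : ∀ a b : ZMod 2, (a = 0 ∧ b = 0 ∧ a + b = 0) ∨ (a = 0 ∧ b ≠ 0 ∧ a + b ≠ 0) ∨
      (a ≠ 0 ∧ b = 0 ∧ a + b ≠ 0) ∨ (a ≠ 0 ∧ b ≠ 0 ∧ a + b = 0) := by decide
    rcases h a b with ⟨h1, h2, h3⟩ | ⟨h1, h2, h3⟩ | ⟨h1, h2, h3⟩ | ⟨h1, h2, h3⟩ <;>
      simp [h1, h2, h3]

theorem sg_one (c : C2) (h : sg c = 1) : c = 1 := by
  obtain ⟨a, rfl⟩ := Multiplicative.ofAdd.surjective c
  by_contra hne
  have ha : a ≠ 0 := by
    intro h0
    apply hne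
    rw [h0]
    rfl
  have h1 : sg (Multiplicative.ofAdd a) = -1 := by
    show (if Multiplicative.toAdd (Multiplicative.ofAdd a) = 0 then (1 : OOˣ) else -1) = -1
    rw [toAdd_ofAdd, if_neg ha]
  rw [h1] at h
  have h2 := congrArg (fun z : OOˣ => (z : OO)) h
  simp only [Units.val_neg, Units.val_one] at h2
  have h3 := congrArg Zsqrtd.re h2
  simp at h3

theorem sg_sq (c : C2) : sg c ^ 2 = 1 := by
  rw [← map_pow]
  have : c ^ 2 = 1 := by
    obtain ⟨a, rfl⟩ := Multiplicative.ofAdd.surjective c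
    rw [← ofAdd_nsmul]
    have h : ∀ a : ZMod 2, 2 • a = 0 := by decide
    rw [h, ofAdd_zero]
  rw [this, map_one]

/-- the kernel attached to a homomorphism to `Wr A × B` -/
noncomputable def kr2 {A B M : Type} [CommGroup A] [CommGroup B] [AddCommGroup M]
    (Ψ : FreeGroup X →* Wr A) (χ : FreeGroup X →* B)
    (a : X → ZMod 2 → ℤ × ℤ) (f : A × B → M) (p : (FreeGroup X × X) × (FreeGroup X × X)) : M :=
  Om (a p.1.2 (Ψ p.1.1).s) (a p.2.2 (Ψ p.2.1).s) •
    f ((Ψ p.1.1).b 0 * (Ψ p.2.1).b 0, χ p.1.1 * χ p.2.1)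

def RG2 (Y : UZ2 ℤ X) : Prop :=
  ∀ (Ψ : FreeGroup X →* Wr C2) (χ : FreeGroup X →* CC) (a : X → ZMod 2 → ℤ × ℤ),
    Finsupp.linearCombination ℤ (kr2 Ψ χ a fun x => (sg x.1 : OO) * (up x.2 : OO)) Y = 0

def RP2 (K : Type) [Field K] (Y : UZ2 ℤ X) : Prop :=
  ∀ (A B : Type) [CommGroup A] [CommGroup B] (_ : ∀ x : A, x * x = 1) (Ψ : FreeGroup X →* Wr A)
    (χ : FreeGroup X →* B) (a : X → ZMod 2 → ℤ × ℤ) (f : A × B → K),
    Finsupp.linearCombination ℤ (kr2 Ψ χ a f) Y = 0

abbrev M2 (ι : Type) : Type := Multiplicative (ι →₀ ZMod 2)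
abbrev MZ (ι : Type) : Type := Multiplicative (ι →₀ ℤ)

abbrev Ch1 (ι : Type) : Type := M2 ι →* C2

theorem ded2 {ι κ : Type} (A : M2 ι × MZ κ →₀ ℤ)
    (h : ∀ (χ : M2 ι →* C2) (ω : MZ κ →* CC),
      Finsupp.linearCombination ℤ (fun x => (sg (χ x.1) : OO) * (up (ω x.2) : OO)) A = 0) :
    A = 0 := by
  let ev : M2 ι × MZ κ → (Ch1 ι × Ch κ →* OO) := fun x =>
    { toFun := fun χ => (sg (χ.1 x.1) : OO) * (up (χ.2 x.2) : OO)
      map_one' := by
        rw [Prod.fst_one, Prod.snd_one, MonoidHom.one_apply, MonoidHom.one_apply, map_one, map_one,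
          Units.val_one, mul_one]
      map_mul' := by
        intro a b
        rw [Prod.fst_mul, Prod.snd_mul, MonoidHom.mul_apply, MonoidHom.mul_apply, map_mul, map_mul,
          Units.val_mul, Units.val_mul]
        ring }
  have hinj : Function.Injective ev := by
    rintro ⟨x, x'⟩ ⟨y, y'⟩ hxy
    have hc1 : ∀ χ : Ch1 ι, χ x = χ y := by
      intro χ
      have h0 : (sg (χ x) : OO) * (up ((1 : Ch κ) x') : OO) =
          (sg (χ y) : OO) * (up ((1 : Ch κ) y') : OO) := DFunLike.congr_fun hxy (χ, 1)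
      rw [MonoidHom.one_apply, MonoidHom.one_apply, map_one, Units.val_one, mul_one, mul_one] at h0
      have h1 : sg (χ x) = sg (χ y) := Units.ext h0
      have h2 : sg (χ x * (χ y)⁻¹) = 1 := by
        rw [map_mul, map_inv, h1, mul_inv_cancel]
      exact mul_inv_eq_one.mp (sg_one _ h2)
    have hc2 : ∀ χ : Ch κ, χ x' = χ y' := by
      intro χ
      have h0 : (sg ((1 : Ch1 ι) x) : OO) * (up (χ x') : OO) =
          (sg ((1 : Ch1 ι) y) : OO) * (up (χ y') : OO) := DFunLike.congr_fun hxy (1, χ)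
      rw [MonoidHom.one_apply, MonoidHom.one_apply, map_one, Units.val_one, one_mul, one_mul] at h0
      have h1 : up (χ x') = up (χ y') := Units.ext h0
      have h2 : up (χ x' * (χ y')⁻¹) = 1 := by
        rw [map_mul, map_inv, h1, mul_inv_cancel]
      exact mul_inv_eq_one.mp (up_one _ h2)
    have e1 : Multiplicative.toAdd x = Multiplicative.toAdd y := by
      ext i
      let χ : Ch1 ι := AddMonoidHom.toMultiplicative (Finsupp.applyAddHom i)
      exact hc1 χ
    have e2 : Multiplicative.toAdd x' = Multiplicative.toAdd y' := by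
      ext i
      let χ : Ch κ := AddMonoidHom.toMultiplicative (Finsupp.applyAddHom i)
      exact hc2 χ
    exact Prod.ext e1 e2
  have hli := (linearIndependent_monoidHom (Ch1 ι × Ch κ) OO).comp ev hinj
  have hA : A.mapRange (Int.cast : ℤ → OO) Int.cast_zero = 0 := by
    refine (linearIndependent_iff.mp hli) _ ?_
    funext χ
    have := h χ.1 χ.2
    rw [Finsupp.linearCombination_apply] at this ⊢
    rw [Finsupp.sum_mapRange_index (by intro i; simp)]
    rw [Finsupp.sum] at this ⊢
    rw [Finset.sum_apply]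
    simpa [ev] using this
  ext x
  have := DFunLike.congr_fun hA x
  simpa using this

/-- the homomorphism from an elementary abelian 2-group given by its values on a basis -/
noncomputable def lift2 {ι A : Type} [CommGroup A] (hA : ∀ x : A, x * x = 1) (v : ι → A) :
    M2 ι →* A :=
  letI : Module (ZMod 2) (Additive A) := AddCommGroup.zmodModule (n := 2) (by
    intro x
    rw [two_nsmul]
    exact hA x)
  AddMonoidHom.toMultiplicativeLeft
    (Finsupp.linearCombination (ZMod 2) (fun i => (Additive.ofMul (v i) : Additive A))).toAddMonoidHom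

theorem lift2_single {ι A : Type} [CommGroup A] (hA : ∀ x : A, x * x = 1) (v : ι → A) (i : ι) :
    lift2 hA v (Multiplicative.ofAdd (Finsupp.single i 1)) = v i := by
  let _ : Module (ZMod 2) (Additive A) := AddCommGroup.zmodModule (n := 2) (by
    intro x
    rw [two_nsmul]
    exact hA x)
  have : (Finsupp.linearCombination (ZMod 2) (fun i => (Additive.ofMul (v i) : Additive A)))
      (Finsupp.single i 1) = Additive.ofMul (v i) := by
    rw [Finsupp.linearCombination_single, one_smul]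
  exact congrArg Additive.toMul this

theorem RP2_of_RG2 (Y : UZ2 ℤ X) (hY : RG2 Y) : RP2 K Y := by
  intro A B _ _ hA2 Ψ χ a f
  let L : M2 (X × ZMod 2) →* A := lift2 hA2 fun i => (Ψ (FreeGroup.of i.1)).b i.2
  have hL : ∀ i : X × ZMod 2, L (Multiplicative.ofAdd (Finsupp.single i 1)) =
      (Ψ (FreeGroup.of i.1)).b i.2 := fun i => lift2_single hA2 _ i
  let L' : MZ X →* B := AddMonoidHom.toMultiplicativeLeft
    (Finsupp.liftAddHom fun i : X =>
      (zmultiplesHom (Additive B)) (Additive.ofMul (χ (FreeGroup.of i))))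
  have hL' : ∀ i : X, L' (Multiplicative.ofAdd (Finsupp.single i 1)) = χ (FreeGroup.of i) := by
    intro i
    have : (Finsupp.liftAddHom fun i : X =>
      (zmultiplesHom (Additive B)) (Additive.ofMul (χ (FreeGroup.of i))))
        (Finsupp.single i 1) = Additive.ofMul (χ (FreeGroup.of i)) := by
      simp
    exact congrArg Additive.toMul this
  let U : FreeGroup X →* Wr (M2 (X × ZMod 2)) :=
    FreeGroup.lift fun x => ⟨fun m => Multiplicative.ofAdd (Finsupp.single (x, m) 1),
      (Ψ (FreeGroup.of x)).s⟩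
  let U' : FreeGroup X →* MZ X :=
    FreeGroup.lift fun x => Multiplicative.ofAdd (Finsupp.single x 1)
  have hU : (Wr.map L).comp U = Ψ := by
    ext x
    · rename_i m
      simp [Wr.map, U, hL]
    · simp [Wr.map, U]
  have hU' : L'.comp U' = χ := by
    ext x
    simp [U', hL']
  let F : ((FreeGroup X × X) × (FreeGroup X × X)) → (M2 (X × ZMod 2) × MZ X →₀ ℤ) :=
    fun p => Finsupp.single ((U p.1.1).b 0 * (U p.2.1).b 0, U' p.1.1 * U' p.2.1)
      (Om (a p.1.2 (U p.1.1).s) (a p.2.2 (U p.2.1).s))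
  have hF : ∀ {M : Type} [AddCommGroup M] (g : M2 (X × ZMod 2) × MZ X → M),
      Finsupp.linearCombination ℤ g (Finsupp.linearCombination ℤ F Y) =
        Finsupp.linearCombination ℤ (kr2 U U' a g) Y := by
    intro M _ g
    rw [Finsupp.apply_linearCombination]
    congr 2
    funext p
    simp only [F, kr2, Function.comp_apply, Finsupp.linearCombination_single]
  have hA : Finsupp.linearCombination ℤ F Y = 0 := by
    refine ded2 _ fun ω ω' => ?_
    have h5 : Finsupp.linearCombination ℤ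
        (kr2 U U' a (fun x => (sg (ω x.1) : OO) * (up (ω' x.2) : OO))) Y = 0 := by
      have h6 := hY ((Wr.map ω).comp U) (ω'.comp U') a
      have h7 : kr2 ((Wr.map ω).comp U) (ω'.comp U') a
          (fun x => (sg x.1 : OO) * (up x.2 : OO)) =
          kr2 U U' a (fun x => (sg (ω x.1) : OO) * (up (ω' x.2) : OO)) := by
        funext p
        simp [kr2, Wr.map]
      rw [h7] at h6
      exact h6
    exact (hF (M := OO) _).trans h5
  have h0 := hF (fun x => f (L x.1, L' x.2))
  rw [hA, map_zero] at h0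
  rw [h0]
  congr 2
  funext p
  simp only [kr2, ← hU, ← hU', MonoidHom.comp_apply, Wr.map, MonoidHom.coe_mk, OneHom.coe_mk,
    map_mul]

end Pool.Agent.H30R3
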