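import Pool.Agent.H30R3.Mdl2
import Pool.Agent.FBZ.WWz

set_option autoImplicit false

open scoped Classical

namespace Pool.Agent.H30R3

open Pool.Agent.FBZ

variable {K : Type} [Field K] {n : ℕ}

noncomputable def WW2 (K : Type) [Field K] (n : ℕ) : Submodule ℤ (Con (mdat K n) → K) where
  carrier := {f | ∀ ψ : FreeGroup ℕ →* Con (mdat K n), Defi ψ →
    ∀ u : FreeGroup ℕ →₀ ℤ, IsId2 u →
    ∀ x, (u.sum fun k r => r • f (x * ψ k)) = 0}
  add_mem' := by
    intro f g hf hg ψ hψ u hu x
    have h1 := hf ψ hψ u hu x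
    have h2 := hg ψ hψ u hu x
    simp only [Finsupp.sum] at h1 h2 ⊢
    simp only [Pi.add_apply, smul_add, Finset.sum_add_distrib, h1, h2, add_zero]
  zero_mem' := by
    intro ψ hψ u hu x
    simp [Finsupp.sum]
  smul_mem' := by
    intro c f hf ψ hψ u hu x
    have h1 := hf ψ hψ u hu x
    simp only [Finsupp.sum] at h1 ⊢
    simp only [Pi.smul_apply, smul_comm _ c, ← Finset.smul_sum, h1, smul_zero]

theorem WW2_trans {f : Con (mdat K n) → K} (hf : f ∈ WW2 K n) (g : Con (mdat K n)) :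
    (fun x => f (x * g)) ∈ WW2 K n := by
  intro ψ hψ u hu x
  have := hf _ (hψ.conj g) u hu (x * g)
  refine Eq.trans ?_ this
  rw [Finsupp.sum, Finsupp.sum]
  refine Finset.sum_congr rfl fun k _ => ?_
  have h1 : (((MulAut.conj g⁻¹).toMonoidHom.comp ψ) k) = g⁻¹ * ψ k * g⁻¹⁻¹ := rfl
  rw [h1]
  congr 2
  group

/-- right translation on `WW2` -/
noncomputable def tau2 (K : Type) [Field K] (n : ℕ) :
    Con (mdat K n) →* Module.End ℤ (WW2 K n) where
  toFun g :=
    { toFun := fun f => ⟨fun x => f.1 (x * g), WW2_trans f.2 g⟩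
      map_add' := by intro f f'; rfl
      map_smul' := by intro r f; rfl }
  map_one' := by
    refine LinearMap.ext fun f => Subtype.ext (funext fun x => ?_)
    show f.1 (x * 1) = f.1 x
    rw [mul_one]
  map_mul' g g' := by
    refine LinearMap.ext fun f => Subtype.ext (funext fun x => ?_)
    show f.1 (x * (g * g')) = f.1 (x * g * g')
    rw [mul_assoc]

theorem tau2_apply (g : Con (mdat K n)) (f : WW2 K n) (x : Con (mdat K n)) :
    (tau2 K n g f).1 x = f.1 (x * g) := rfl

theorem cfun_mem2 (h2 : (2 : K) = 0) :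
    (fun γ : Con (mdat K n) => γ.c) ∈ WW2 K n := by
  intro ψ hψ u hu x
  obtain ⟨z, hz, h⟩ := hψ
  exact main2b h2 z hz u hu ψ h x

theorem tau2_id (ψ : FreeGroup ℕ →* Con (mdat K n)) (hψ : Defi ψ)
    (u : FreeGroup ℕ →₀ ℤ) (hu : IdR (Con.rep gdat2) u) (f : WW2 K n) :
    (u.sum fun k r => r • tau2 K n (ψ k) f) = 0 := by
  refine Subtype.ext (funext fun x => ?_)
  have h1 : ((u.sum fun k r => r • (tau2 K n (ψ k)) f : WW2 K n) : Con (mdat K n) → K) x =
      u.sum fun k r => r • f.1 (x * ψ k) := by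
    rw [Finsupp.sum, Finsupp.sum, Submodule.coe_sum, Finset.sum_apply]
    refine Finset.sum_congr rfl fun k _ => ?_
    rfl
  rw [h1]
  exact f.2 ψ hψ u hu x

/-- laws of the big group hold in the model group for homomorphisms with few letters -/
theorem law_transfer2 {P : Type} [Group P] {N : ℕ} (hN : N < n)
    (w : FreeGroup ℕ)
    (hw : ∀ f : FreeGroup ℕ →* Con (sdat (fdat (P := P) (Con.rep gdat2))), f w = 1)
    (hl : ∀ (H : Type) [Group H]
      (ψ ψ' : FreeGroup ℕ →* H), (∀ i < N, ψ (FreeGroup.of i) = ψ' (FreeGroup.of i)) → ψ w = ψ' w)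
    (f : FreeGroup ℕ →* Con (sdat (fdat (P := P) (tau2 K n)))) :
    (f w).a = 0 ∧ fdat (P := P) (tau2 K n) (f w).q = 1 := by
  let f' : FreeGroup ℕ →* Con (sdat (fdat (P := P) (tau2 K n))) :=
    FreeGroup.lift fun i => if i < N then f (FreeGroup.of i) else 1
  have hf' : ∀ i, f' (FreeGroup.of i) = if i < N then f (FreeGroup.of i) else 1 := by
    intro i; simp [f']
  have hag : f w = f' w := by
    apply hl
    intro i hi
    rw [hf', if_pos hi]
  obtain ⟨z, hz0, hz⟩ := exists_orth hN fun i => ((f (FreeGroup.of i)).q.1).q.1.e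
  let ψ : FreeGroup ℕ →* Con (mdat K n) × P := (Con.proj _).comp f'
  have hd : Defi ((MonoidHom.fst _ P).comp ψ) := by
    refine ⟨z, hz0, fun k => ?_⟩
    show dot z ((f' k).q.1).q.1.e = 0
    induction k using FreeGroup.induction_on with
    | C1 => simp
    | of x =>
      rw [hf']
      split_ifs with h
      · exact hz x h
      · simp
    | inv_of x hx => rw [map_inv]; exact hx
    | mul x y hx hy =>
      rw [map_mul, Con.mul_q, Prod.fst_mul, Con.mul_q, Prod.fst_mul, Hn.mul_e, dot_add, hx, hy,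
        add_zero]
  rw [hag]
  exact transfer (fdat (P := P) (Con.rep gdat2)) (fdat (P := P) (tau2 K n)) ψ
    (prodId2 (Con.rep gdat2) (tau2 K n) ψ (fun u hu v => tau2_id _ hd u hu v)) w hw f' (fun k => rfl)

end Pool.Agent.H30R3
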