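import Pool.Agent.H30R3.WW2
import Pool.Agent.FBZ.Fai

set_option autoImplicit false

open scoped Classical

namespace Pool.Agent.H30R3

open Pool.Agent.FBZ

theorem q2_class (x y z : Q2) : cm (cm x y) z = 1 := by
  apply cm_eq_one
  have h1 : (cm x y).s = 0 := by simp [cm]
  have h2 : (cm x y).y = 0 := by simp [cm]
  ext
  · simp [h1]
  · simp [h2]
  · simp only [Q2.mul_z, h1, h2]; ring
  · simp only [Q2.mul_k]; ring

theorem th_sq (c : Q2) (hs : c.s = 0) (hy : c.y = 0) (hk : c.k = 0) : th (c ^ 2) = 1 := by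
  rw [pow_two]
  refine Prod.ext (Wr.ext (funext fun m => ?_) ?_) ?_
  · show Multiplicative.ofAdd (((c * c).z : ZMod 2) + ((c * c).y : ZMod 2) * m) = 1
    rw [Q2.mul_z, Q2.mul_y, hs, hy]
    have := Wr.add_self_zmod2 (c.z : ZMod 2)
    simp [this]
  · show ((c * c).s : ZMod 2) = 0
    rw [Q2.mul_s, hs]
    simp
  · show Multiplicative.ofAdd ((c * c).k) = 1
    rw [Q2.mul_k, hk]
    rfl

theorem q2_cm (x y : Q2) : (cm x y).s = 0 ∧ (cm x y).y = 0 ∧ (cm x y).k = 0 := by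
  refine ⟨?_, ?_, ?_⟩ <;> simp [cm]

/-! ### the words -/

def bw : FreeGroup ℕ := (cm (FreeGroup.of 0) (FreeGroup.of 1)) ^ 2
def ww : FreeGroup ℕ := cm (cm (FreeGroup.of 2) (FreeGroup.of 3)) (FreeGroup.of 3)
def vw2 : FreeGroup ℕ := cm (cm ww bw) bw
def aw2 : FreeGroup ℕ := cm (cm (FreeGroup.of 4) (FreeGroup.of 5)) (FreeGroup.of 5)
def Lw2 (n : ℕ) : FreeGroup ℕ := cm (cm vw2 aw2) (cw n * aw2 * (cw n)⁻¹)

/-! ### the law holds in the big group -/

theorem g2_class (x y : Con gdat2) (hx : x.q = 1) (hy : th y.q = 1) : cm (cm x y) y = 1 := by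
  have hpe : gdat2.pe y.q = 1 := by
    show gdat1.pe (th y.q) = 1
    rw [hy, map_one]
  have hpz : gdat2.pz y.q = 1 := by
    show gdat1.pz (th y.q) = 1
    rw [hy, map_one]
  have hz : (cm x y).q = 1 := by rw [cm_q, hx]; exact cm_eq_one (by rw [one_mul, mul_one])
  have hza : (cm x y).a = 0 := by
    rw [cm_a1 x y hx, hpe, Module.End.one_apply, sub_self]
  apply cm_eq_one
  refine FBZ.Con.ext ?_ ?_ ?_
  · rw [Con.mul_a, Con.mul_a, hza, hz, hpe, map_one]
    simp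
  · rw [Con.mul_c, Con.mul_c, hza, hz, hpe, hpz, map_one]
    simp [add_comm]
  · rw [Con.mul_q, Con.mul_q, hz, one_mul, mul_one]

abbrev GG2 : Type := Con (sdat (fdat (P := Q2) (Con.rep gdat2)))

theorem vw2_q (φ : FreeGroup ℕ →* Con gdat2 × Q2) : φ vw2 = 1 := by
  refine Prod.ext ?_ ?_
  · let g : FreeGroup ℕ →* Con gdat2 := (MonoidHom.fst _ _).comp φ
    show g vw2 = 1
    rw [vw2, map_cm, map_cm]
    refine g2_class _ _ ?_ ?_
    · rw [ww, map_cm, map_cm, cm_q, cm_q]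
      exact q2_class _ _ _
    · rw [bw, map_pow, map_cm]
      have e : (cm (g (FreeGroup.of 0)) (g (FreeGroup.of 1)) ^ 2).q =
          (cm (g (FreeGroup.of 0)).q (g (FreeGroup.of 1)).q) ^ 2 := by
        rw [pow_two, pow_two, Con.mul_q, cm_q]
      rw [e]
      obtain ⟨h1, h2, h3⟩ := q2_cm (g (FreeGroup.of 0)).q (g (FreeGroup.of 1)).q
      exact th_sq _ h1 h2 h3
  · let p : FreeGroup ℕ →* Q2 := (MonoidHom.snd _ _).comp φ
    show p vw2 = 1
    rw [vw2, map_cm, map_cm]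
    have : p ww = 1 := by
      rw [ww, map_cm, map_cm]
      exact q2_class _ _ _
    rw [this]
    simp [cm]

theorem aw2_q (φ : FreeGroup ℕ →* Con gdat2 × Q2) : (φ aw2).1.q = 1 ∧ (φ aw2).2 = 1 := by
  constructor
  · let g : FreeGroup ℕ →* Con gdat2 := (MonoidHom.fst _ _).comp φ
    show (g aw2).q = 1
    rw [aw2, map_cm, map_cm, cm_q, cm_q]
    exact q2_class _ _ _
  · let p : FreeGroup ℕ →* Q2 := (MonoidHom.snd _ _).comp φ
    show p aw2 = 1
    rw [aw2, map_cm, map_cm]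
    exact q2_class _ _ _

theorem cw_s2 (φ : FreeGroup ℕ →* Con gdat2 × Q2) (n : ℕ) : (th (φ (cw n)).1.q).1.s = 0 := by
  induction n with
  | zero => simp [cw]
  | succ m ih =>
    rw [cw, map_mul, Prod.fst_mul, Con.mul_q, map_mul, Prod.fst_mul, Wr.mul_s, ih, map_pow, pow_two,
      Prod.fst_mul, Con.mul_q, zero_add, map_mul, Prod.fst_mul]
    exact Wr.add_self_zmod2 _

theorem rep_kill2 (A A' : Con gdat2) (hA : A.q = 1) (hA' : A'.q = 1)
    (hom : gdat2.om A'.a A.a = 0) (v : ℤ × (ZMod 2 → OO × OO) × (ZMod 2 → OO)) :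
    (v - Con.rep gdat2 A v) - Con.rep gdat2 A' (v - Con.rep gdat2 A v) = 0 := by
  obtain ⟨r, e, w⟩ := v
  rw [Con.rep_apply, Con.rep_apply]
  simp only [hA, hA', map_one, Module.End.one_apply, Prod.mk_sub_mk]
  refine Prod.ext ?_ (Prod.ext ?_ ?_)
  · simp
  · simp
  · have h1 : gdat2.om A'.a (r • A.a) = 0 := by rw [map_smul, hom, smul_zero]
    have h2 : gdat2.om A'.a (e - (r • A.a + e)) = 0 := by
      rw [map_sub, map_add, h1, zero_add, sub_self]
    show (w - (r • A.c + w + gdat2.om A.a e)) - ((r - r) • A'.c +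
      (w - (r • A.c + w + gdat2.om A.a e)) + gdat2.om A'.a (e - (r • A.a + e))) = 0
    rw [h2, sub_self, zero_smul, zero_add, add_zero, sub_self]

theorem Lw2_law (n : ℕ) (f : FreeGroup ℕ →* GG2) : f (Lw2 n) = 1 := by
  let φ : FreeGroup ℕ →* Con gdat2 × Q2 := (Con.proj _).comp f
  have hv : (f vw2).q = 1 := vw2_q φ
  obtain ⟨ha1, ha2⟩ := aw2_q φ
  have hc := cw_s2 φ n
  set x := f vw2 with hx
  set y := f aw2 with hy
  set c := f (cw n) with hcc
  have ha1' : y.q.1.q = 1 := ha1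
  have ha2' : y.q.2 = 1 := ha2
  have hc' : (th c.q.1.q).1.s = 0 := hc
  have h1 : f (Lw2 n) = cm (cm x y) (c * y * c⁻¹) := by
    rw [Lw2, map_cm, map_cm, map_mul, map_mul, map_inv]
  rw [h1]
  have hq1 : (cm x y).q = 1 := by
    rw [cm_q, hv]; exact cm_eq_one (by rw [one_mul, mul_one])
  refine FBZ.Con.ext ?_ (Subsingleton.elim _ _) ?_
  · rw [cm_a1 _ _ hq1, cm_a1 _ _ hv, Con.one_a]
    funext p
    show (x.a p - Con.rep gdat2 y.q.1 (x.a ((y.q.2)⁻¹ * p))) -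
      Con.rep gdat2 (c * y * c⁻¹).q.1 (x.a (((c * y * c⁻¹).q.2)⁻¹ * p) -
        Con.rep gdat2 y.q.1 (x.a ((y.q.2)⁻¹ * (((c * y * c⁻¹).q.2)⁻¹ * p)))) = 0
    have e2 : (c * y * c⁻¹).q.2 = 1 := by
      rw [Con.mul_q, Con.mul_q, Con.inv_q, Prod.snd_mul, Prod.snd_mul, Prod.snd_inv, ha2', mul_one,
        mul_inv_cancel]
    have e1 : (c * y * c⁻¹).q.1 = c.q.1 * y.q.1 * (c.q.1)⁻¹ := rfl
    simp only [e2, ha2', inv_one, one_mul, e1]
    refine rep_kill2 _ _ ha1' ?_ ?_ _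
    · simp [ha1']
    · have ha' : (c.q.1 * y.q.1 * (c.q.1)⁻¹).a = gdat2.pe c.q.1.q y.q.1.a := by
        simp only [Con.mul_a, Con.mul_q, ha1', mul_one, Con.inv_a, map_neg]
        rw [← Module.End.mul_apply, ← map_mul, mul_inv_cancel, map_one, Module.End.one_apply]
        abel
      rw [ha']
      funext m
      rw [om2_apply, pe2_apply, hc', add_zero, Prod.smul_fst, Prod.smul_snd, smul_eq_mul,
        smul_eq_mul, Pi.zero_apply]
      ring
  · rw [cm_q, hq1, Con.one_q]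
    exact cm_eq_one (by rw [one_mul, mul_one])

end Pool.Agent.H30R3
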